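import Pool.Agent.Helper90.KSC.Growth

/-!
Limit directions and eigenvectors.
-/

open Filter Topology

namespace Pool.Agent.Helper90.KSC

variable {ι : Type*} [Fintype ι]

theorem tendsto_root {u : ℕ → ℝ} {a : ℝ} (ha : 1 ≤ a)
    (hup : ∀ s, a < s → ∀ᶠ n in atTop, u n ≤ s ^ n)
    (hlow : ∀ s, 0 < s → s < a → ∀ᶠ n in atTop, s ^ n ≤ u n) :
    Tendsto (fun n : ℕ => (max (u n) 1) ^ ((1 : ℝ) / n)) atTop (𝓝 a) := by
  have hroot : ∀ (s : ℝ), 0 ≤ s → ∀ n : ℕ, n ≠ 0 → (s ^ n) ^ ((1 : ℝ) / n) = s := by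
    intro s hs n hn
    rw [one_div]
    exact Real.pow_rpow_inv_natCast hs hn
  rw [tendsto_order]
  constructor
  · intro s hs
    set s' := (max s 0 + a) / 2 with hs'
    have h0 : max s 0 < a := max_lt hs (by linarith)
    have h1 : max s 0 < s' := by rw [hs']; linarith
    have h2 : s' < a := by rw [hs']; linarith
    have h3 : 0 < s' := (le_max_right s 0).trans_lt h1
    have h4 : s < s' := (le_max_left s 0).trans_lt h1
    filter_upwards [hlow s' h3 h2, eventually_gt_atTop 0] with n hn hn0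
    refine h4.trans_le ?_
    calc s' = (s' ^ n) ^ ((1 : ℝ) / n) := (hroot s' h3.le n hn0.ne').symm
      _ ≤ (max (u n) 1) ^ ((1 : ℝ) / n) :=
        Real.rpow_le_rpow (by positivity) (hn.trans (le_max_left _ _)) (by positivity)
  · intro s hs
    set s' := (s + a) / 2 with hs'
    have h1 : a < s' := by rw [hs']; linarith
    have h2 : s' < s := by rw [hs']; linarith
    filter_upwards [hup s' h1, eventually_gt_atTop 0] with n hn hn0
    refine lt_of_le_of_lt ?_ h2
    calc (max (u n) 1) ^ ((1 : ℝ) / n) ≤ (s' ^ n) ^ ((1 : ℝ) / n) :=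
        Real.rpow_le_rpow (by positivity)
          (max_le hn (one_le_pow₀ (ha.trans h1.le))) (by positivity)
      _ = s' := hroot s' (by linarith) n hn0.ne'

theorem exact_eig [Nonempty ι] (A : Matrix ι ι ℝ) (v : ℕ → ι → ℝ) (hv : ∀ n i, 0 ≤ v n i)
    (hstep : ∀ n, v (n + 1) = A.mulVec (v n)) {a : ℝ} (ha : 0 < a)
    (hup : ∀ s, a < s → ∃ C > 0, ∀ k, ∑ j, v k j ≤ C * s ^ k)
    (hlow : ∀ s, 0 < s → s < a → ∃ c > 0, ∀ k, c * s ^ k ≤ ∑ j, v k j) :
    ∃ w ∈ stdSimplex ℝ ι, A.mulVec w = a • w ∧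
      ∀ c : ι → ℝ, (∀ n, 0 ≤ ∑ i, c i * v n i) → 0 ≤ ∑ i, c i * w i := by
  have hT : IsClosed {w : ι → ℝ | ∀ c : ι → ℝ, (∀ n, 0 ≤ ∑ i, c i * v n i) →
      0 ≤ ∑ i, c i * w i} := by
    have e : {w : ι → ℝ | ∀ c : ι → ℝ, (∀ n, 0 ≤ ∑ i, c i * v n i) → 0 ≤ ∑ i, c i * w i} =
        ⋂ c : ι → ℝ, ⋂ (_ : ∀ n, 0 ≤ ∑ i, c i * v n i), {w : ι → ℝ | 0 ≤ ∑ i, c i * w i} := by
      ext w
      simp only [Set.mem_setOf_eq, Set.mem_iInter]
    rw [e]
    refine isClosed_iInter fun c => isClosed_iInter fun _ => ?_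
    exact isClosed_le continuous_const
      (continuous_finsetSum _ fun i _ => continuous_const.mul (continuous_apply i))
  obtain ⟨w, hw, hwT, hwe⟩ := exact_of_approx A a _ hT (by
    intro η hη
    set θ : ℝ := min 1 (η / (2 * (a + 1))) with hθ
    have hθ0 : 0 < θ := lt_min one_pos (by positivity)
    have hθ1 : θ ≤ 1 := min_le_left _ _
    have hθ2 : θ * (2 * (a + 1)) ≤ η := by
      rw [← le_div_iff₀ (by positivity)]
      exact min_le_right _ _
    set b : ℝ := a / (1 + θ / 8) with hb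
    have hb0 : 0 < b := by positivity
    have hba : b * (1 + θ / 8) = a := by
      rw [hb]
      field_simp
    have hblt : b < a := by nlinarith
    set t : ℕ → ℝ := fun n => (∑ j, v n j) / b ^ n with ht
    set S : ℕ → ℝ := fun k => ∑ n ∈ Finset.range k, t n with hS
    have ht0 : ∀ n, 0 ≤ t n := fun n =>
      div_nonneg (Finset.sum_nonneg fun j _ => hv n j) (by positivity)
    -- main claim
    have key : ∃ k, 0 < S k ∧ t 0 + t k ≤ θ * S k := by
      by_contra hcon
      push Not at hcon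
      obtain ⟨c, hc, hlowc⟩ := hlow ((a + b) / 2) (by positivity) (by linarith)
      have hr : 1 < (a + b) / 2 / b := by
        rw [one_lt_div hb0]
        linarith
      have htl : ∀ k, c * ((a + b) / 2 / b) ^ k ≤ t k := by
        intro k
        rw [ht]
        simp only []
        rw [div_pow, mul_div_assoc']
        exact div_le_div_of_nonneg_right (hlowc k) (by positivity)
      have h3 : ∀ᶠ k : ℕ in atTop, 2 * t 0 / (θ * c) ≤ ((a + b) / 2 / b) ^ k :=
        (tendsto_pow_atTop_atTop_of_one_lt hr).eventually_ge_atTop _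
      obtain ⟨k₀, hk₀⟩ := eventually_atTop.mp h3
      have hSge : ∀ k ≥ k₀ + 1, 0 < S k ∧ 2 * t 0 ≤ θ * S k := by
        intro k hk
        have h4 := hk₀ k₀ le_rfl
        rw [div_le_iff₀ (by positivity)] at h4
        have h5 := htl k₀
        have h6 : t k₀ ≤ S k := Finset.single_le_sum (f := t) (fun i _ => ht0 i)
          (Finset.mem_range.mpr (by omega))
        have h7 : 0 < c * ((a + b) / 2 / b) ^ k₀ := by positivity
        refine ⟨by linarith, ?_⟩
        calc 2 * t 0 ≤ ((a + b) / 2 / b) ^ k₀ * (θ * c) := h4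
          _ = θ * (c * ((a + b) / 2 / b) ^ k₀) := by ring
          _ ≤ θ * S k := by
            apply mul_le_mul_of_nonneg_left _ hθ0.le
            linarith
      have hstepS : ∀ k ≥ k₀ + 1, (1 + θ / 2) * S k ≤ S (k + 1) := by
        intro k hk
        obtain ⟨h4, h5⟩ := hSge k hk
        have h6 := hcon k h4
        have h7 : S (k + 1) = S k + t k := Finset.sum_range_succ _ _
        rw [h7]
        linarith
      have hgrow : ∀ m, (1 + θ / 2) ^ m * S (k₀ + 1) ≤ S (k₀ + 1 + m) := by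
        intro m
        induction m with
        | zero => simp
        | succ m ih =>
          have h4 := hstepS (k₀ + 1 + m) (by omega)
          calc (1 + θ / 2) ^ (m + 1) * S (k₀ + 1) =
                (1 + θ / 2) * ((1 + θ / 2) ^ m * S (k₀ + 1)) := by ring
            _ ≤ (1 + θ / 2) * S (k₀ + 1 + m) := by gcongr
            _ ≤ S (k₀ + 1 + (m + 1)) := h4
      set q : ℝ := (1 + θ / 8) ^ 2 with hq
      have hq1 : 1 < q := by rw [hq]; nlinarith
      have hq2 : q < 1 + θ / 2 := by rw [hq]; nlinarith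
      obtain ⟨C, hC, hupC⟩ := hup (a * (1 + θ / 8)) (by nlinarith)
      have htu : ∀ k, t k ≤ C * q ^ k := by
        intro k
        rw [ht]
        simp only []
        rw [div_le_iff₀ (by positivity)]
        refine (hupC k).trans (le_of_eq ?_)
        rw [← hba, hq, mul_assoc C, ← mul_pow]
        congr 2
        ring
      have hSu : ∀ k, S k ≤ C * q ^ k / (q - 1) := by
        intro k
        have h4 : S k ≤ C * ∑ n ∈ Finset.range k, q ^ n := by
          rw [Finset.mul_sum]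
          exact Finset.sum_le_sum fun n _ => htu n
        refine h4.trans ?_
        rw [geom_sum_eq hq1.ne', mul_div_assoc']
        apply div_le_div_of_nonneg_right _ (by linarith)
        nlinarith
      have hr2 : 1 < (1 + θ / 2) / q := by
        rw [one_lt_div (by linarith)]
        exact hq2
      have hS0 : 0 < S (k₀ + 1) := (hSge _ le_rfl).1
      have h5 : ∀ᶠ m : ℕ in atTop, C * q ^ (k₀ + 1) / ((q - 1) * S (k₀ + 1)) <
          ((1 + θ / 2) / q) ^ m :=
        (tendsto_pow_atTop_atTop_of_one_lt hr2).eventually_gt_atTop _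
      obtain ⟨m, hm⟩ := h5.exists
      have hqm : 0 < q ^ m := by positivity
      have hq10 : 0 < q - 1 := by linarith
      rw [div_pow, div_lt_div_iff₀ (by positivity) hqm] at hm
      have h6 := (hgrow m).trans (hSu (k₀ + 1 + m))
      rw [le_div_iff₀ hq10] at h6
      have h7 : C * q ^ (k₀ + 1 + m) = C * q ^ (k₀ + 1) * q ^ m := by rw [pow_add]; ring
      rw [h7] at h6
      nlinarith
    obtain ⟨k, hk1, hk2⟩ := key
    have he0 : ∀ n ≥ 0, ∀ i, |v (n + 1) i - (A.mulVec (v n)) i| ≤ 0 * ∑ j, v n j := by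
      intro n _ i
      rw [hstep n]
      simp
    have hk1' : 0 < ∑ n ∈ Finset.range k, (∑ j, v (0 + n) j) / b ^ (0 + n) := by
      simpa only [zero_add] using hk1
    obtain ⟨w, hw, h1, h2⟩ := window A v hv hb0 he0 hk1'
    refine ⟨w, hw, h2, fun i => ?_⟩
    have h3 := h1 i
    simp only [zero_add, add_zero] at h3
    have h4 : b * (((∑ j, v 0 j) / b ^ 0 + (∑ j, v k j) / b ^ k) /
        ∑ n ∈ Finset.range k, (∑ j, v n j) / b ^ n) ≤ b * θ := by
      apply mul_le_mul_of_nonneg_left _ hb0.le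
      rw [div_le_iff₀ hk1]
      exact hk2
    have hwi0 : 0 ≤ w i := hw.1 i
    have hwi1 : w i ≤ 1 := by
      have h5 := hw.2
      rw [← h5]
      exact Finset.single_le_sum (f := w) (fun i _ => hw.1 i) (Finset.mem_univ i)
    have e : a * w i - (A.mulVec w) i = (a - b) * w i + (b * w i - (A.mulVec w) i) := by ring
    rw [e]
    refine (abs_add_le _ _).trans ?_
    rw [abs_of_nonneg (mul_nonneg (by linarith) hwi0)]
    have h6 : (a - b) * w i ≤ a - b := by nlinarith
    have h7 : a - b ≤ a * θ := by nlinarith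
    have h8 : b * θ ≤ a * θ := by nlinarith
    nlinarith [h3.trans h4])
  exact ⟨w, hw, hwe, hwT⟩

theorem limit_dir [DecidableEq ι] (A : Matrix ι ι ℝ) (v : ℕ → ι → ℝ) (hv : ∀ n i, 0 ≤ v n i)
    (he : ∀ ε > 0, ∃ M, ∀ n ≥ M, ∀ i, |v (n + 1) i - (A.mulVec (v n)) i| ≤ ε * ∑ j, v n j)
    {φ : ℕ → ℕ} (hφ : Tendsto φ atTop atTop) (hpos : ∀ᶠ k in atTop, 0 < ∑ j, v (φ k) j)
    {w : ι → ℝ} (hw : ∀ i, Tendsto (fun k => v (φ k) i / ∑ j, v (φ k) j) atTop (𝓝 (w i))) (m : ℕ) :
    ∀ i, Tendsto (fun k => v (φ k + m) i / ∑ j, v (φ k) j) atTop (𝓝 (((A ^ m).mulVec w) i)) := by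
  induction m with
  | zero => simpa using hw
  | succ m ih =>
    intro i
    -- the sum ratio
    have hsum : Tendsto (fun k => (∑ j, v (φ k + m) j) / ∑ j, v (φ k) j) atTop
        (𝓝 (∑ j, ((A ^ m).mulVec w) j)) := by
      have h1 := tendsto_finsetSum Finset.univ fun j _ => ih j
      refine h1.congr fun k => ?_
      rw [Finset.sum_div]
    have hmain : Tendsto (fun k => (A.mulVec (v (φ k + m))) i / ∑ j, v (φ k) j) atTop
        (𝓝 ((A.mulVec ((A ^ m).mulVec w)) i)) := by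
      unfold Matrix.mulVec dotProduct
      have h1 := tendsto_finsetSum Finset.univ fun j _ => (ih j).const_mul (A i j)
      refine h1.congr fun k => ?_
      rw [Finset.sum_div]
      apply Finset.sum_congr rfl
      intro j _
      rw [mul_div_assoc]
    have herr : Tendsto (fun k => (v (φ k + m + 1) i - (A.mulVec (v (φ k + m))) i) /
        ∑ j, v (φ k) j) atTop (𝓝 0) := by
      set U : ℝ := ∑ j, ((A ^ m).mulVec w) j with hU
      rw [Metric.tendsto_nhds]
      intro ε hε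
      obtain ⟨M, hM⟩ := he (ε / (2 * (|U| + 1))) (by positivity)
      have h2 : ∀ᶠ k in atTop, (∑ j, v (φ k + m) j) / ∑ j, v (φ k) j < |U| + 1 :=
        hsum.eventually_lt_const (by linarith [le_abs_self U])
      have h3 : ∀ᶠ k in atTop, M ≤ φ k + m := by
        filter_upwards [hφ.eventually_ge_atTop M] with k hk
        omega
      filter_upwards [h2, h3, hpos] with k hk1 hk2 hk3
      rw [Real.dist_eq, sub_zero, abs_div, abs_of_pos hk3, div_lt_iff₀ hk3]
      rw [div_lt_iff₀ hk3] at hk1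
      have h4 := hM (φ k + m) hk2 i
      have h5 : ε / (2 * (|U| + 1)) * ∑ j, v (φ k + m) j ≤
          ε / (2 * (|U| + 1)) * ((|U| + 1) * ∑ j, v (φ k) j) := by gcongr
      have h6 : ε / (2 * (|U| + 1)) * ((|U| + 1) * ∑ j, v (φ k) j) = ε / 2 * ∑ j, v (φ k) j := by
        have : |U| + 1 ≠ 0 := by positivity
        field_simp
      nlinarith
    have h7 := hmain.add herr
    rw [add_zero, Matrix.mulVec_mulVec, ← pow_succ'] at h7
    refine h7.congr fun k => ?_
    rw [← add_div, ← add_assoc]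
    congr 1
    ring

/-- The growth rate exists, and along every sequence of times it is an eigenvalue with an
eigenvector in the cone spanned by the limit directions. -/
theorem cone_eig [Nonempty ι] (A : Matrix ι ι ℝ) (v : ℕ → ι → ℝ) (hv : ∀ n i, 0 ≤ v n i)
    (he : ∀ ε > 0, ∃ M, ∀ n ≥ M, ∀ i, |v (n + 1) i - (A.mulVec (v n)) i| ≤ ε * ∑ j, v n j)
    (hinf : ∀ B : ℝ, ∃ N, ∀ n ≥ N, B ≤ ∑ i, v n i) :
    ∃ a : ℝ, 1 ≤ a ∧
      Tendsto (fun n : ℕ => (max (∑ j, v n j) 1) ^ ((1 : ℝ) / n)) atTop (𝓝 a) ∧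
      ∀ φ : ℕ → ℕ, Tendsto φ atTop atTop → ∃ w ∈ stdSimplex ℝ ι, A.mulVec w = a • w ∧
        ∀ c : ι → ℝ, (∀ m, ∀ ε > 0, ∀ᶠ k in atTop,
          -(ε * ∑ j, v (φ k + m) j) ≤ ∑ i, c i * v (φ k + m) i) → 0 ≤ ∑ i, c i * w i := by
  classical
  obtain ⟨a, ha, hup, hlow⟩ := growth_exists A v hv he hinf
  have ha0 : 0 < a := lt_of_lt_of_le one_pos ha
  have hpos : ∃ M, ∀ n ≥ M, 0 < ∑ j, v n j := by
    obtain ⟨M, hM⟩ := hinf 1
    exact ⟨M, fun n hn => lt_of_lt_of_le one_pos (hM n hn)⟩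
  refine ⟨a, ha, tendsto_root ha hup hlow, fun φ hφ => ?_⟩
  obtain ⟨M₁, hM₁⟩ := hpos
  have hposφ : ∀ᶠ k in atTop, 0 < ∑ j, v (φ k) j := by
    filter_upwards [hφ.eventually_ge_atTop M₁] with k hk
    exact hM₁ _ hk
  -- a limit direction
  have hmem : ∃ᶠ k in atTop, (fun i => v (φ k) i / ∑ j, v (φ k) j) ∈ stdSimplex ℝ ι := by
    apply Eventually.frequently
    filter_upwards [hposφ] with k hk
    refine ⟨fun i => div_nonneg (hv _ _) hk.le, ?_⟩
    rw [← Finset.sum_div, div_self hk.ne']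
  obtain ⟨w₀, hw₀, ψ, hψ, hlim⟩ := (isCompact_stdSimplex ℝ ι).tendsto_subseq' hmem
  have hφψ : Tendsto (φ ∘ ψ) atTop atTop := hφ.comp hψ.tendsto_atTop
  have hposψ : ∀ᶠ k in atTop, 0 < ∑ j, v ((φ ∘ ψ) k) j := hψ.tendsto_atTop.eventually hposφ
  have hdir := limit_dir A v hv he hφψ hposψ (w := w₀) (fun i => (tendsto_pi_nhds.mp hlim) i)
  set v' : ℕ → ι → ℝ := fun m => (A ^ m).mulVec w₀ with hv'
  have hv'0 : ∀ m i, 0 ≤ v' m i := by
    intro m i
    refine ge_of_tendsto (hdir m i) ?_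
    filter_upwards [hposψ] with k hk
    exact div_nonneg (hv _ _) hk.le
  have hsum : ∀ m, Tendsto (fun k => (∑ j, v ((φ ∘ ψ) k + m) j) / ∑ j, v ((φ ∘ ψ) k) j) atTop
      (𝓝 (∑ j, v' m j)) := by
    intro m
    have h1 := tendsto_finsetSum Finset.univ fun j _ => hdir m j
    refine h1.congr fun k => ?_
    rw [Finset.sum_div]
  obtain ⟨w, hw, hwe, hwc⟩ := exact_eig A v' hv'0 (fun m => by
      rw [hv']
      simp only []
      rw [Matrix.mulVec_mulVec, ← pow_succ']) ha0
    (by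
      intro s hs
      obtain ⟨C, hC, M, hM⟩ := local_up A v hv he ⟨M₁, hM₁⟩ ha0 hup hs
      refine ⟨C, hC, fun m => ?_⟩
      refine le_of_tendsto (hsum m) ?_
      filter_upwards [hposψ, hφψ.eventually_ge_atTop M] with k hk1 hk2
      rw [div_le_iff₀ hk1]
      exact hM _ hk2 m)
    (by
      intro s hs0 hs
      obtain ⟨c, hc, M, hM⟩ := local_low A v hv he ⟨M₁, hM₁⟩ hlow hs0 hs
      refine ⟨c, hc, fun m => ?_⟩
      refine ge_of_tendsto (hsum m) ?_
      filter_upwards [hposψ, hφψ.eventually_ge_atTop M] with k hk1 hk2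
      rw [le_div_iff₀ hk1]
      exact hM _ hk2 m)
  refine ⟨w, hw, hwe, fun c hc => hwc c fun m => ?_⟩
  have h1 : Tendsto (fun k => (∑ i, c i * v ((φ ∘ ψ) k + m) i) / ∑ j, v ((φ ∘ ψ) k) j) atTop
      (𝓝 (∑ i, c i * v' m i)) := by
    have h1 := tendsto_finsetSum Finset.univ fun j _ => (hdir m j).const_mul (c j)
    refine h1.congr fun k => ?_
    rw [Finset.sum_div]
    apply Finset.sum_congr rfl
    intro j _
    rw [mul_div_assoc]
  apply le_of_forall_pos_le_add
  intro ε hε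
  have hU : 0 ≤ ∑ j, v' m j := Finset.sum_nonneg fun j _ => hv'0 m j
  have h2 : Tendsto (fun k => -(ε / (∑ j, v' m j + 1) *
      ((∑ j, v ((φ ∘ ψ) k + m) j) / ∑ j, v ((φ ∘ ψ) k) j))) atTop
      (𝓝 (-(ε / (∑ j, v' m j + 1) * ∑ j, v' m j))) := ((hsum m).const_mul _).neg
  have h3 := le_of_tendsto_of_tendsto h2 h1 (by
    filter_upwards [hposψ, hψ.tendsto_atTop.eventually
      (hc m (ε / (∑ j, v' m j + 1)) (by positivity))] with k hk1 hk2
    rw [le_div_iff₀ hk1]
    refine le_trans (le_of_eq ?_) hk2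
    have : ∑ j, v ((φ ∘ ψ) k) j ≠ 0 := hk1.ne'
    simp only [Function.comp_apply] at this ⊢
    field_simp)
  have h4 : ε / (∑ j, v' m j + 1) * ∑ j, v' m j ≤ ε := by
    rw [div_mul_eq_mul_div, div_le_iff₀ (by positivity)]
    nlinarith
  linarith

end Pool.Agent.Helper90.KSC
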