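import Pool.Agent.Helper90.KSC.Defs
import Pool.Agent.Helper90.KSC.Limit

/-!
Heights and global sections; Northcott.
-/

open Filter Topology

namespace Pool.Agent.Helper90.KSC

open scoped LinearAlgebra.Projectivization

variable {K : Type*} [Field K] [NumberField K] {ι : Type*} [Fintype ι] {N : ι → ℕ}

theorem logHeight_rep' {n : ℕ} (p : ℙ K (Fin (n + 1) → K)) :
    Height.logHeight p.rep = Projectivization.logHeight p := by
  conv_rhs => rw [← p.mk_rep]
  rw [Projectivization.logHeight_mk]

omit [NumberField K] in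
theorem mono_ne_zero (b : ι → ℕ) (x : PPt K N) : mono b x ≠ 0 := by
  have h : ∀ t : (Σ i, Fin (b i)), ∃ j, (x t.1).rep j ≠ 0 := by
    intro t
    exact Function.ne_iff.mp (x t.1).rep_nonzero
  choose w hw using h
  refine Function.ne_iff.mpr ⟨w, ?_⟩
  unfold mono
  exact Finset.prod_ne_zero_iff.mpr fun t _ => hw t

theorem logHeight_mono [DecidableEq ι] (b : ι → ℕ) (x : PPt K N) :
    Height.logHeight (mono b x) = ∑ i, (b i : ℝ) * Projectivization.logHeight (x i) := by
  have h := Height.logHeight_fun_prod_eq (K := K) (α := Σ i, Fin (b i))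
    (ι := fun t => Fin (N t.1 + 1)) (x := fun t => (x t.1).rep) (fun t => (x t.1).rep_nonzero)
  have e : mono b x = (fun I : (t : (Σ i, Fin (b i))) → Fin (N t.1 + 1) =>
      ∏ t, (x t.1).rep (I t)) := rfl
  rw [e, h, Fintype.sum_sigma]
  apply Finset.sum_congr rfl
  intro i _
  have h2 : ∀ y ∈ (Finset.univ : Finset (Fin (b i))),
      Height.logHeight (x (Sigma.mk (β := fun i => Fin (b i)) i y).1).rep =
        Projectivization.logHeight (x i) := fun y _ => logHeight_rep' _
  refine (Finset.sum_congr rfl h2).trans ?_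
  rw [Finset.sum_const, Finset.card_univ, Fintype.card_fin, nsmul_eq_mul]

theorem logHeight_le_of_lin {α β : Type*} [Fintype α] [Finite β] (L : β → α → K) :
    ∃ C : ℝ, ∀ (x : α → K) (y : β → K), (∀ j, y j = ∑ i, L j i * x i) →
      Height.logHeight y ≤ C + Height.logHeight x := by
  refine ⟨Height.totalWeight K * Real.log (Nat.card α) +
    Height.logHeight (fun q : β × α => L q.1 q.2), fun x y h => ?_⟩
  have h1 := Height.logHeight_linearMap_apply_le (K := K) (fun q : β × α => L q.1 q.2) x
  have h2 : (fun j => ∑ i, L j i * x i) = y := by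
    funext j
    rw [h j]
  simp only [] at h1
  rw [h2] at h1
  exact h1

variable [DecidableEq ι]

theorem Generated.bound {Y : Set (PPt K N)} {c : ι → ℤ} (h : Generated Y c) :
    ∃ C : ℝ, ∀ x ∈ Y, -C ≤ ∑ i, (c i : ℝ) * Projectivization.logHeight (x i) := by
  obtain ⟨b, d, hbd, t, L, hL⟩ := h
  obtain ⟨C, hC⟩ := logHeight_le_of_lin (K := K) L
  refine ⟨C, fun x hx => ?_⟩
  obtain ⟨z, hz, h1⟩ := hL x hx
  have e1 := hC (mono b x) (fun p => z p.1 * mono d x p.2) h1
  rw [Height.logHeight_fun_mul_eq hz (mono_ne_zero d x), logHeight_mono, logHeight_mono] at e1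
  have e2 : 0 ≤ Height.logHeight z := Height.logHeight_nonneg z
  have e3 : ∑ i, (b i : ℝ) * Projectivization.logHeight (x i) =
      ∑ i, (c i : ℝ) * Projectivization.logHeight (x i) +
        ∑ i, (d i : ℝ) * Projectivization.logHeight (x i) := by
    rw [← Finset.sum_add_distrib]
    apply Finset.sum_congr rfl
    intro i _
    have h3 : (b i : ℝ) = c i + d i := by exact_mod_cast hbd i
    rw [h3, add_mul]
  linarith

theorem Generated.bound_mul {Y : Set (PPt K N)} {c : ι → ℤ} {m k : ℕ} (hm : 1 ≤ m) (hk : 1 ≤ k)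
    (h : Generated Y fun i => (k : ℤ) * (m * c i + 1)) :
    ∃ C : ℝ, ∀ x ∈ Y, -(totalHeight x / m) - C ≤
      ∑ i, (c i : ℝ) * Projectivization.logHeight (x i) := by
  obtain ⟨C, hC⟩ := h.bound
  have hk0 : (0 : ℝ) < k := by exact_mod_cast hk
  have hm0 : (0 : ℝ) < m := by exact_mod_cast hm
  refine ⟨C / (k * m), fun x hx => ?_⟩
  have h1 := hC x hx
  have e : ∑ i, (((k : ℤ) * (m * c i + 1) : ℤ) : ℝ) * Projectivization.logHeight (x i) =
      k * m * ∑ i, (c i : ℝ) * Projectivization.logHeight (x i) + k * totalHeight x := by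
    unfold totalHeight
    rw [Finset.mul_sum, Finset.mul_sum, ← Finset.sum_add_distrib]
    apply Finset.sum_congr rfl
    intro i _
    push_cast
    ring
  rw [e] at h1
  have h2 : -(totalHeight x / m) - C / (k * m) = (-(k * totalHeight x) - C) / (k * m) := by
    field_simp
  rw [h2, div_le_iff₀ (by positivity)]
  linarith

theorem Nef.bound {Y : Set (PPt K N)} {c : ι → ℤ} (h : Nef Y c) {ε : ℝ} (hε : 0 < ε) :
    ∃ C : ℝ, ∀ x ∈ Y, -(ε * totalHeight x) - C ≤
      ∑ i, (c i : ℝ) * Projectivization.logHeight (x i) := by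
  obtain ⟨m, hm⟩ := exists_nat_gt (1 / ε)
  have hm0 : (0 : ℝ) < m := (by positivity : (0 : ℝ) < 1 / ε).trans hm
  have hm1 : 1 ≤ m := by exact_mod_cast hm0
  obtain ⟨k, hk, hg⟩ := h m hm1
  obtain ⟨C, hC⟩ := hg.bound_mul hm1 hk
  refine ⟨C, fun x hx => ?_⟩
  have h1 := hC x hx
  have h2 : 0 ≤ totalHeight x :=
    Finset.sum_nonneg fun i _ => Projectivization.logHeight_nonneg _
  have h3 : totalHeight x / m ≤ ε * totalHeight x := by
    rw [div_le_iff₀ hm0]
    rw [div_lt_iff₀ hε] at hm
    nlinarith
  linarith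

/-- Northcott's theorem for projective space over a number field. -/
theorem northcott_proj' (n : ℕ) (B : ℝ) :
    {p : ℙ K (Fin (n + 1) → K) | Projectivization.logHeight p ≤ B}.Finite := by
  classical
  set S : Set K := {z : K | Height.mulHeight₁ z ≤ Real.exp B} with hS
  have hSf : S.Finite := NumberField.finite_setOfPred_mulHeight₁_le K (Real.exp B)
  have hpi : (Set.pi Set.univ (fun _ : Fin (n + 1) => S)).Finite := Set.Finite.pi fun _ => hSf
  have hp0 : (fun _ => 1 : Fin (n + 1) → K) ≠ 0 := by
    intro h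
    exact one_ne_zero (congrFun h 0)
  refine (hpi.image (fun t : Fin (n + 1) → K =>
    if h : t ≠ 0 then Projectivization.mk K t h else Projectivization.mk K _ hp0)).subset ?_
  intro p hp
  obtain ⟨j, hj⟩ := Function.ne_iff.mp p.rep_nonzero
  have hj' : p.rep j ≠ 0 := hj
  set t : Fin (n + 1) → K := (p.rep j)⁻¹ • p.rep with ht
  have ht0 : t ≠ 0 := smul_ne_zero (inv_ne_zero hj') p.rep_nonzero
  have htj : t j = 1 := by
    rw [ht, Pi.smul_apply, smul_eq_mul, inv_mul_cancel₀ hj']
  refine ⟨t, ?_, ?_⟩
  · intro k _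
    have h1 : Height.mulHeight₁ (t k) ≤ Height.mulHeight t := by
      rw [Height.mulHeight₁_eq_mulHeight]
      have h2 := Height.mulHeight_comp_le (K := K) (![k, j] : Fin 2 → Fin (n + 1)) t
      have e : t ∘ ![k, j] = ![t k, 1] := by
        funext q
        fin_cases q
        · rfl
        · simpa using htj
      rwa [e] at h2
    have h3 : Height.mulHeight t = Projectivization.mulHeight p := by
      rw [ht, Height.mulHeight_smul_eq_mulHeight _ (inv_ne_zero hj')]
      conv_rhs => rw [← p.mk_rep]
      rw [Projectivization.mulHeight_mk]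
    have h4 : Projectivization.mulHeight p ≤ Real.exp B := by
      have hp' : Projectivization.logHeight p ≤ B := hp
      rw [Projectivization.logHeight_eq_log_mulHeight] at hp'
      exact (Real.log_le_iff_le_exp (Projectivization.mulHeight_pos p)).mp hp'
    exact h1.trans (h3 ▸ h4)
  · simp only [ht0, ne_eq, not_false_eq_true, dite_true]
    conv_rhs => rw [← p.mk_rep]
    rw [Projectivization.mk_eq_mk_iff']
    exact ⟨(p.rep j)⁻¹, rfl⟩

omit [DecidableEq ι] in
theorem northcott_ppt (N : ι → ℕ) (B : ℝ) : {x : PPt K N | totalHeight x ≤ B}.Finite := by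
  refine (Set.Finite.pi (t := fun i => {p : ℙ K (Fin (N i + 1) → K) |
    Projectivization.logHeight p ≤ B}) fun i => northcott_proj' (K := K) (N i) B).subset ?_
  intro x hx i _
  have h1 : Projectivization.logHeight (x i) ≤ totalHeight x :=
    Finset.single_le_sum (f := fun i => Projectivization.logHeight (x i))
      (fun i _ => Projectivization.logHeight_nonneg _) (Finset.mem_univ i)
  exact h1.trans hx

theorem ActsBy.raw {X : Set (PPt K N)} {f : PPt K N → PPt K N} {A : Matrix ι ι ℤ}
    (h : ActsBy X f A) (i : ι) {ε : ℝ} (hε : 0 < ε) :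
    ∃ C : ℝ, ∀ x ∈ X, |Projectivization.logHeight (f x i) -
      ∑ j, (A i j : ℝ) * Projectivization.logHeight (x j)| ≤
        ε * (totalHeight x + totalHeight (f x)) + C := by
  obtain ⟨h1, h2⟩ := h i
  obtain ⟨C₁, hC₁⟩ := h1.bound hε
  obtain ⟨C₂, hC₂⟩ := h2.bound hε
  refine ⟨max C₁ C₂, fun x hx => ?_⟩
  have hmem : pair x (f x) ∈ graph X f := ⟨x, hx, rfl⟩
  have e1 := hC₁ _ hmem
  have e2 := hC₂ _ hmem
  have hT : totalHeight (pair x (f x)) = totalHeight x + totalHeight (f x) := by
    unfold totalHeight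
    rw [Fintype.sum_sum_type]
    rfl
  have hs : ∑ s : ι ⊕ ι, ((Sum.elim (fun j => -A i j) (Pi.single i 1) s : ℤ) : ℝ) *
      Projectivization.logHeight (pair x (f x) s) = Projectivization.logHeight (f x i) -
        ∑ j, (A i j : ℝ) * Projectivization.logHeight (x j) := by
    rw [Fintype.sum_sum_type]
    have h3 : ∑ j : ι, ((Sum.elim (fun j => -A i j) (Pi.single i 1) (Sum.inl j) : ℤ) : ℝ) *
        Projectivization.logHeight (pair x (f x) (Sum.inl j)) =
        -∑ j, (A i j : ℝ) * Projectivization.logHeight (x j) := by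
      rw [← Finset.sum_neg_distrib]
      apply Finset.sum_congr rfl
      intro j _
      simp only [Sum.elim_inl, Int.cast_neg, neg_mul]
      rfl
    have h4 : ∑ j : ι, ((Sum.elim (fun j => -A i j) (Pi.single i 1) (Sum.inr j) : ℤ) : ℝ) *
        Projectivization.logHeight (pair x (f x) (Sum.inr j)) =
        Projectivization.logHeight (f x i) := by
      rw [Finset.sum_eq_single i]
      · simp only [Sum.elim_inr, Pi.single_eq_same, Int.cast_one, one_mul]
        rfl
      · intro j _ hj
        simp [Pi.single_eq_of_ne hj]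
      · intro hi
        exact absurd (Finset.mem_univ i) hi
    rw [h3, h4]
    ring
  have hs2 : ∑ s : ι ⊕ ι, (((-Sum.elim (fun j => -A i j) (Pi.single i 1)) s : ℤ) : ℝ) *
      Projectivization.logHeight (pair x (f x) s) = -(Projectivization.logHeight (f x i) -
        ∑ j, (A i j : ℝ) * Projectivization.logHeight (x j)) := by
    rw [← hs, ← Finset.sum_neg_distrib]
    apply Finset.sum_congr rfl
    intro s _
    simp only [Pi.neg_apply, Int.cast_neg, neg_mul]
  rw [hT, hs] at e1
  rw [hT, hs2] at e2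
  have m1 := le_max_left C₁ C₂
  have m2 := le_max_right C₁ C₂
  rw [abs_le]
  constructor <;> linarith

theorem ActsBy.bound {X : Set (PPt K N)} {f : PPt K N → PPt K N} {A : Matrix ι ι ℤ}
    (h : ActsBy X f A) {ε : ℝ} (hε : 0 < ε) :
    ∃ C : ℝ, ∀ x ∈ X, ∀ i, |Projectivization.logHeight (f x i) -
      ∑ j, (A i j : ℝ) * Projectivization.logHeight (x j)| ≤ ε * totalHeight x + C := by
  have hT0 : ∀ x : PPt K N, 0 ≤ totalHeight x := fun x =>
    Finset.sum_nonneg fun i _ => Projectivization.logHeight_nonneg _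
  -- a first bound for the height of the image
  set r : ℝ := (Fintype.card ι : ℝ) with hr
  have hr0 : 0 ≤ r := by rw [hr]; positivity
  set L : ℝ := ∑ i, ∑ j, |(A i j : ℝ)| with hL
  have hL0 : 0 ≤ L := Finset.sum_nonneg fun i _ => Finset.sum_nonneg fun j _ => abs_nonneg _
  have step : ∀ ε > 0, ∃ C : ℝ, 0 ≤ C ∧ ∀ x ∈ X, ∀ i, |Projectivization.logHeight (f x i) -
      ∑ j, (A i j : ℝ) * Projectivization.logHeight (x j)| ≤
        ε * (totalHeight x + totalHeight (f x)) + C := by
    intro ε hε
    choose C hC using fun i => h.raw i hε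
    refine ⟨∑ i, |C i|, Finset.sum_nonneg fun i _ => abs_nonneg _, fun x hx i => ?_⟩
    have h1 : C i ≤ ∑ i, |C i| := (le_abs_self _).trans
      (Finset.single_le_sum (f := fun i => |C i|) (fun i _ => abs_nonneg _) (Finset.mem_univ i))
    linarith [hC i x hx]
  have himg : ∃ D₁ D₂ : ℝ, 0 ≤ D₁ ∧ 0 ≤ D₂ ∧ ∀ x ∈ X, totalHeight (f x) ≤
      D₁ * totalHeight x + D₂ := by
    obtain ⟨C, hC0, hC⟩ := step (1 / (2 * (r + 1))) (by positivity)
    refine ⟨2 * L + 1, 2 * (r * C), by positivity, by positivity, fun x hx => ?_⟩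
    have h1 : ∀ i, Projectivization.logHeight (f x i) ≤
        (∑ j, |(A i j : ℝ)|) * totalHeight x +
          (1 / (2 * (r + 1)) * (totalHeight x + totalHeight (f x)) + C) := by
      intro i
      have h2 := (abs_le.mp (hC x hx i)).2
      have h3 : ∑ j, (A i j : ℝ) * Projectivization.logHeight (x j) ≤
          (∑ j, |(A i j : ℝ)|) * totalHeight x := by
        rw [Finset.sum_mul]
        apply Finset.sum_le_sum
        intro j _
        have h4 : Projectivization.logHeight (x j) ≤ totalHeight x :=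
          Finset.single_le_sum (f := fun i => Projectivization.logHeight (x i))
            (fun i _ => Projectivization.logHeight_nonneg _) (Finset.mem_univ j)
        calc (A i j : ℝ) * Projectivization.logHeight (x j) ≤
              |(A i j : ℝ)| * Projectivization.logHeight (x j) :=
              mul_le_mul_of_nonneg_right (le_abs_self _) (Projectivization.logHeight_nonneg _)
          _ ≤ |(A i j : ℝ)| * totalHeight x := mul_le_mul_of_nonneg_left h4 (abs_nonneg _)
      linarith
    have h5 : totalHeight (f x) ≤ L * totalHeight x +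
        r * (1 / (2 * (r + 1)) * (totalHeight x + totalHeight (f x)) + C) := by
      calc totalHeight (f x) ≤ ∑ i, ((∑ j, |(A i j : ℝ)|) * totalHeight x +
          (1 / (2 * (r + 1)) * (totalHeight x + totalHeight (f x)) + C)) :=
            Finset.sum_le_sum fun i _ => h1 i
        _ = _ := by
          rw [Finset.sum_add_distrib, ← Finset.sum_mul, Finset.sum_const, Finset.card_univ,
            nsmul_eq_mul]
    have h6 : r * (1 / (2 * (r + 1))) ≤ 1 / 2 := by
      rw [mul_one_div, div_le_div_iff₀ (by positivity) (by norm_num)]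
      linarith
    have h7 : r * (1 / (2 * (r + 1)) * (totalHeight x + totalHeight (f x)) + C) ≤
        1 / 2 * (totalHeight x + totalHeight (f x)) + r * C := by
      have h8 := mul_le_mul_of_nonneg_right h6 (add_nonneg (hT0 x) (hT0 (f x)))
      linarith
    linarith
  obtain ⟨D₁, D₂, hD₁, hD₂, hD⟩ := himg
  obtain ⟨C, hC0, hC⟩ := step (ε / (D₁ + 1)) (by positivity)
  refine ⟨ε / (D₁ + 1) * D₂ + C, fun x hx i => (hC x hx i).trans ?_⟩
  have h1 := hD x hx
  have h2 : ε / (D₁ + 1) * (totalHeight x + totalHeight (f x)) ≤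
      ε / (D₁ + 1) * (totalHeight x + (D₁ * totalHeight x + D₂)) := by
    apply mul_le_mul_of_nonneg_left _ (by positivity)
    linarith
  have h3 : ε / (D₁ + 1) * (totalHeight x + (D₁ * totalHeight x + D₂)) =
      ε * totalHeight x + ε / (D₁ + 1) * D₂ := by
    field_simp
    ring
  linarith

end Pool.Agent.Helper90.KSC
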