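import Pool.Agent.Helper90.KSC.Defs

/-!
Zariski closed subsets and returns of a dense orbit.
-/

open Filter Topology

namespace Pool.Agent.Helper90.KSC

open scoped LinearAlgebra.Projectivization

variable {K : Type*} [Field K] {ι : Type*} [Fintype ι] [DecidableEq ι] {N : ι → ℕ}

omit [Fintype ι] in
theorem zclosed_empty : ZClosed (∅ : Set (PPt K N)) := by
  refine ⟨{1}, ?_, ?_⟩
  · intro F hF
    rw [Set.mem_singleton_iff] at hF
    rw [hF]
    exact ⟨0, MvPolynomial.isWeightedHomogeneous_one K _⟩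
  · ext x
    simp

omit [Fintype ι] in
theorem zclosed_union {E₁ E₂ : Set (PPt K N)} (h₁ : ZClosed E₁) (h₂ : ZClosed E₂) :
    ZClosed (E₁ ∪ E₂) := by
  obtain ⟨S₁, hS₁, rfl⟩ := h₁
  obtain ⟨S₂, hS₂, rfl⟩ := h₂
  refine ⟨Set.image2 (fun F G => F * G) S₁ S₂, ?_, ?_⟩
  · rintro _ ⟨F, hF, G, hG, rfl⟩
    obtain ⟨b, hb⟩ := hS₁ F hF
    obtain ⟨c, hc⟩ := hS₂ G hG
    exact ⟨b + c, hb.mul hc⟩
  · ext x
    constructor
    · rintro (h | h) _ ⟨F, hF, G, hG, rfl⟩
      · have h' : MvPolynomial.eval (fun s => (x s.1).rep s.2) F = 0 := h F hF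
        simp only [map_mul, h', zero_mul]
      · have h' : MvPolynomial.eval (fun s => (x s.1).rep s.2) G = 0 := h G hG
        simp only [map_mul, h', mul_zero]
    · intro h
      by_contra hcon
      rw [Set.mem_union, not_or] at hcon
      obtain ⟨hc1, hc2⟩ := hcon
      have h1 : ∃ F ∈ S₁, MvPolynomial.eval (fun s => (x s.1).rep s.2) F ≠ 0 := by
        by_contra hc
        push Not at hc
        exact hc1 hc
      have h2 : ∃ F ∈ S₂, MvPolynomial.eval (fun s => (x s.1).rep s.2) F ≠ 0 := by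
        by_contra hc
        push Not at hc
        exact hc2 hc
      obtain ⟨F, hF, hF0⟩ := h1
      obtain ⟨G, hG, hG0⟩ := h2
      have h3 : MvPolynomial.eval (fun s => (x s.1).rep s.2) (F * G) = 0 :=
        h _ ⟨F, hF, G, hG, rfl⟩
      rw [map_mul] at h3
      exact (mul_ne_zero hF0 hG0) h3

omit [Fintype ι] in
theorem zclosed_singleton (p : PPt K N) : ZClosed ({p} : Set (PPt K N)) := by
  refine ⟨{F | ∃ (i : ι) (j k : Fin (N i + 1)), F = MvPolynomial.C ((p i).rep j) *
    MvPolynomial.X ⟨i, k⟩ - MvPolynomial.C ((p i).rep k) * MvPolynomial.X ⟨i, j⟩}, ?_, ?_⟩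
  · rintro F ⟨i, j, k, rfl⟩
    refine ⟨Pi.single i 1, ?_⟩
    have h1 : ∀ l : Fin (N i + 1), MvPolynomial.IsWeightedHomogeneous
        (fun s : (Σ i, Fin (N i + 1)) => (Pi.single s.1 1 : ι → ℕ))
        (MvPolynomial.X ⟨i, l⟩ : MvPolynomial (Σ i, Fin (N i + 1)) K) (Pi.single i 1) := fun l =>
      MvPolynomial.isWeightedHomogeneous_X K
        (fun s : (Σ i, Fin (N i + 1)) => (Pi.single s.1 1 : ι → ℕ)) ⟨i, l⟩
    exact ((h1 k).C_mul _).sub ((h1 j).C_mul _)
  · ext x
    rw [Set.mem_singleton_iff]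
    constructor
    · rintro rfl F ⟨i, j, k, rfl⟩
      simp only [map_sub, map_mul, MvPolynomial.eval_C, MvPolynomial.eval_X]
      ring
    · intro h
      funext i
      obtain ⟨j, hj⟩ := Function.ne_iff.mp (p i).rep_nonzero
      have hj' : (p i).rep j ≠ 0 := hj
      have h1 : ∀ k, (x i).rep k = ((x i).rep j / (p i).rep j) * (p i).rep k := by
        intro k
        have h2 : MvPolynomial.eval (fun s : (Σ i, Fin (N i + 1)) => (x s.1).rep s.2)
            (MvPolynomial.C ((p i).rep j) *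
              (MvPolynomial.X ⟨i, k⟩ : MvPolynomial (Σ i, Fin (N i + 1)) K) -
            MvPolynomial.C ((p i).rep k) *
              (MvPolynomial.X ⟨i, j⟩ : MvPolynomial (Σ i, Fin (N i + 1)) K)) = 0 :=
          h _ ⟨i, j, k, rfl⟩
        simp only [map_sub, map_mul, MvPolynomial.eval_C, MvPolynomial.eval_X] at h2
        rw [div_mul_eq_mul_div, eq_div_iff hj']
        linear_combination h2
      have h2 : ((x i).rep j / (p i).rep j) • (p i).rep = (x i).rep := by
        funext k
        rw [Pi.smul_apply, smul_eq_mul, h1 k]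
      rw [← (x i).mk_rep, ← (p i).mk_rep, Projectivization.mk_eq_mk_iff']
      exact ⟨_, h2⟩

omit [Fintype ι] in
theorem zclosed_finite {T : Set (PPt K N)} (hT : T.Finite) : ZClosed T := by
  induction T, hT using Set.Finite.induction_on with
  | empty => exact zclosed_empty
  | @insert a s _ _ ih =>
    rw [Set.insert_eq]
    exact zclosed_union (zclosed_singleton a) ih

omit [Fintype ι] in
theorem zclosed_iUnion {m : ℕ} {E : ℕ → Set (PPt K N)} (h : ∀ j, ZClosed (E j)) :
    ZClosed (⋃ j ∈ Finset.range m, E j) := by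
  induction m with
  | zero => simpa using zclosed_empty
  | succ m ih =>
    have e : (⋃ j ∈ Finset.range (m + 1), E j) = (⋃ j ∈ Finset.range m, E j) ∪ E m := by
      ext x
      simp only [Set.mem_iUnion, Set.mem_union, Finset.mem_range]
      constructor
      · rintro ⟨j, hj, hx⟩
        rcases Nat.lt_succ_iff_lt_or_eq.mp hj with h1 | h1
        · exact Or.inl ⟨j, h1, hx⟩
        · exact Or.inr (h1 ▸ hx)
      · rintro (⟨j, hj, hx⟩ | hx)
        · exact ⟨j, by omega, hx⟩
        · exact ⟨m, by omega, hx⟩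
    rw [e]
    exact zclosed_union ih (h m)

omit [Fintype ι] in
theorem Irred.iUnion {X : Set (PPt K N)} (hX : Irred X) {m : ℕ} {E : ℕ → Set (PPt K N)}
    (h : ∀ j, ZClosed (E j)) (hc : X ⊆ ⋃ j ∈ Finset.range m, E j) : ∃ j < m, X ⊆ E j := by
  induction m with
  | zero =>
    obtain ⟨x, hx⟩ := hX.1
    have := hc hx
    simp at this
  | succ m ih =>
    have e : (⋃ j ∈ Finset.range (m + 1), E j) = (⋃ j ∈ Finset.range m, E j) ∪ E m := by
      ext x
      simp only [Set.mem_iUnion, Set.mem_union, Finset.mem_range]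
      constructor
      · rintro ⟨j, hj, hx⟩
        rcases Nat.lt_succ_iff_lt_or_eq.mp hj with h1 | h1
        · exact Or.inl ⟨j, h1, hx⟩
        · exact Or.inr (h1 ▸ hx)
      · rintro (⟨j, hj, hx⟩ | hx)
        · exact ⟨j, by omega, hx⟩
        · exact ⟨m, by omega, hx⟩
    rw [e] at hc
    rcases hX.2 _ _ (zclosed_iUnion h) (h m) hc with h1 | h1
    · obtain ⟨j, hj, h2⟩ := ih h1
      exact ⟨j, by omega, h2⟩
    · exact ⟨m, by omega, h1⟩

omit [Fintype ι] in
/-- all the tails of a dense infinite orbit are dense -/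
theorem tail_dense {X : Set (PPt K N)} {f : PPt K N → PPt K N} {x : PPt K N}
    (hmem : ∀ n, f^[n] x ∈ X) (hinj : Function.Injective fun n : ℕ => f^[n] x) (hX : Irred X)
    (hd : DenseOrbit X f x) {E : Set (PPt K N)} (hE : ZClosed E) {M : ℕ}
    (h : ∀ n ≥ M, f^[n] x ∈ E) : X ⊆ E := by
  set T : Set (PPt K N) := (fun n : ℕ => f^[n] x) '' (Set.Iio M) with hT
  have hTf : T.Finite := (Set.finite_Iio M).image _
  have h1 : X ⊆ E ∪ T := by
    apply hd _ (zclosed_union hE (zclosed_finite hTf))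
    intro n
    by_cases hn : n < M
    · exact Or.inr ⟨n, hn, rfl⟩
    · exact Or.inl (h n (by omega))
  rcases hX.2 _ _ hE (zclosed_finite hTf) h1 with h2 | h2
  · exact h2
  · exfalso
    have h3 : (Set.range fun n : ℕ => f^[n] x).Finite := by
      apply hTf.subset
      rintro _ ⟨n, rfl⟩
      exact h2 (hmem n)
    exact Set.infinite_range_of_injective hinj h3

omit [Fintype ι] in
/-- long intervals of times at which a dense orbit avoids a proper closed subset -/
theorem avoid {X : Set (PPt K N)} {f : PPt K N → PPt K N} {x : PPt K N}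
    (hmem : ∀ n, f^[n] x ∈ X) (hinj : Function.Injective fun n : ℕ => f^[n] x) (hX : Irred X)
    (hf : ZCont X f) (hd : DenseOrbit X f x) {E : Set (PPt K N)} (hE : ZClosed E)
    (hXE : ¬ X ⊆ E) (hmaps : Set.MapsTo f X X) (l M : ℕ) : ∃ n ≥ M, ∀ j < l, f^[n + j] x ∉ E := by
  by_contra hcon
  push Not at hcon
  -- closed sets of the points which enter `E` after `j` steps
  have h1 : ∀ j : ℕ, ∃ E', ZClosed E' ∧ ∀ y ∈ X, y ∈ E' ↔ f^[j] y ∈ E := by
    intro j
    induction j with
    | zero => exact ⟨E, hE, fun y _ => Iff.rfl⟩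
    | succ j ih =>
      obtain ⟨E₁, hE₁, h2⟩ := ih
      obtain ⟨E₂, hE₂, h3⟩ := hf E₁ hE₁
      refine ⟨E₂, hE₂, fun y hy => ?_⟩
      rw [h3 y hy, h2 _ (hmaps hy), Function.iterate_succ_apply]
  choose F hF hF2 using h1
  have h2 : X ⊆ ⋃ j ∈ Finset.range l, F j := by
    apply tail_dense hmem hinj hX hd (zclosed_iUnion hF) (M := M)
    intro n hn
    obtain ⟨j, hj, hj2⟩ := hcon n hn
    simp only [Set.mem_iUnion]
    refine ⟨j, Finset.mem_range.mpr hj, ?_⟩
    rw [hF2 j _ (hmem n), ← Function.iterate_add_apply, add_comm]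
    exact hj2
  obtain ⟨j, _, hj⟩ := hX.iUnion hF h2
  apply hXE
  apply tail_dense hmem hinj hX hd hE (M := j)
  intro n hn
  obtain ⟨k, rfl⟩ := Nat.exists_eq_add_of_le hn
  have h3 := (hF2 j _ (hmem k)).mp (hj (hmem k))
  rwa [← Function.iterate_add_apply] at h3

end Pool.Agent.Helper90.KSC
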