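import Mathlib

/-!
Nonnegative vector sequences with `v (n+1) = A v n + o(|v n|)`: growth rates and eigenvectors.
-/

open Filter Topology

namespace Pool.Agent.Helper90.KSC

variable {ι : Type*} [Fintype ι]

/-- window sums give approximate eigenvectors -/
theorem window (A : Matrix ι ι ℝ) (v : ℕ → ι → ℝ) (hv : ∀ n i, 0 ≤ v n i) {b : ℝ} (hb : 0 < b)
    {ε : ℝ} {M : ℕ} (he : ∀ n ≥ M, ∀ i, |v (n + 1) i - (A.mulVec (v n)) i| ≤ ε * ∑ j, v n j)
    {k : ℕ} (hS : 0 < ∑ n ∈ Finset.range k, (∑ j, v (M + n) j) / b ^ (M + n)) :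
    ∃ w ∈ stdSimplex ℝ ι, (∀ i, |b * w i - (A.mulVec w) i| ≤
        b * (((∑ j, v M j) / b ^ M + (∑ j, v (M + k) j) / b ^ (M + k)) /
          ∑ n ∈ Finset.range k, (∑ j, v (M + n) j) / b ^ (M + n)) + ε) ∧
      ∀ c : ι → ℝ, (∀ n, 0 ≤ ∑ i, c i * v n i) → 0 ≤ ∑ i, c i * w i := by
  set S := ∑ n ∈ Finset.range k, (∑ j, v (M + n) j) / b ^ (M + n) with hSd
  set Φ : ι → ℝ := fun i => ∑ n ∈ Finset.range k, v (M + n) i / b ^ (M + n) with hΦ
  have hΦs : ∑ i, Φ i = S := by
    rw [hΦ, hSd, Finset.sum_comm]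
    apply Finset.sum_congr rfl
    intro n _
    rw [← Finset.sum_div]
  refine ⟨fun i => Φ i / S, ⟨fun i => div_nonneg (Finset.sum_nonneg fun n _ =>
    div_nonneg (hv _ i) (by positivity)) hS.le, ?_⟩, fun i => ?_, fun c hc => ?_⟩
  · rw [← Finset.sum_div, hΦs, div_self hS.ne']
  · have e1 : A.mulVec (fun i => Φ i / S) = S⁻¹ • A.mulVec Φ := by
      rw [← Matrix.mulVec_smul]
      congr 1
      funext k
      simp only [Pi.smul_apply, smul_eq_mul]
      rw [div_eq_mul_inv, mul_comm]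
    have e2 : b * (Φ i / S) - (A.mulVec (fun i => Φ i / S)) i =
        (b * Φ i - (A.mulVec Φ) i) / S := by
      rw [e1, Pi.smul_apply, smul_eq_mul]
      field_simp
    have e3 : b * Φ i - (A.mulVec Φ) i = b * (v M i / b ^ M - v (M + k) i / b ^ (M + k)) +
        ∑ n ∈ Finset.range k, (v (M + n + 1) i - (A.mulVec (v (M + n))) i) / b ^ (M + n) := by
      have e4 : (A.mulVec Φ) i =
          ∑ n ∈ Finset.range k, (A.mulVec (v (M + n))) i / b ^ (M + n) := by
        unfold Matrix.mulVec dotProduct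
        simp only [hΦ, Finset.mul_sum, Finset.sum_div]
        rw [Finset.sum_comm]
        apply Finset.sum_congr rfl
        intro n _
        apply Finset.sum_congr rfl
        intro k _
        ring
      have e5 : ∑ n ∈ Finset.range k,
          (v (M + n) i / b ^ (M + n) - v (M + (n + 1)) i / b ^ (M + (n + 1))) =
          v M i / b ^ M - v (M + k) i / b ^ (M + k) := by
        have := Finset.sum_range_sub' (fun n => v (M + n) i / b ^ (M + n)) k
        simpa using this
      have e6 : b * Φ i = ∑ n ∈ Finset.range k, b * (v (M + n) i / b ^ (M + n)) :=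
        Finset.mul_sum _ _ _
      rw [e4, ← e5, e6, Finset.mul_sum, ← Finset.sum_sub_distrib, ← Finset.sum_add_distrib]
      apply Finset.sum_congr rfl
      intro n _
      rw [← add_assoc, pow_succ]
      field_simp
      ring
    have h1 : |b * (v M i / b ^ M - v (M + k) i / b ^ (M + k))| ≤
        b * ((∑ j, v M j) / b ^ M + (∑ j, v (M + k) j) / b ^ (M + k)) := by
      rw [abs_mul, abs_of_pos hb]
      apply mul_le_mul_of_nonneg_left _ hb.le
      refine (abs_sub _ _).trans (add_le_add ?_ ?_)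
      · rw [abs_of_nonneg (div_nonneg (hv M i) (by positivity))]
        apply div_le_div_of_nonneg_right _ (by positivity)
        exact Finset.single_le_sum (f := fun i => v M i) (fun i _ => hv M i) (Finset.mem_univ i)
      · rw [abs_of_nonneg (div_nonneg (hv _ i) (by positivity))]
        apply div_le_div_of_nonneg_right _ (by positivity)
        exact Finset.single_le_sum (f := fun i => v (M + k) i) (fun i _ => hv _ i)
          (Finset.mem_univ i)
    have h2 : |∑ n ∈ Finset.range k,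
        (v (M + n + 1) i - (A.mulVec (v (M + n))) i) / b ^ (M + n)| ≤ ε * S := by
      rw [hSd, Finset.mul_sum]
      refine (Finset.abs_sum_le_sum_abs _ _).trans (Finset.sum_le_sum fun n _ => ?_)
      rw [abs_div, abs_of_pos (show 0 < b ^ (M + n) by positivity), mul_div_assoc']
      apply div_le_div_of_nonneg_right _ (by positivity)
      exact he (M + n) (by omega) i
    rw [e2, abs_div, abs_of_pos hS, e3, div_le_iff₀ hS]
    have h5 : b * (((∑ j, v M j) / b ^ M + (∑ j, v (M + k) j) / b ^ (M + k)) / S) * S =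
        b * ((∑ j, v M j) / b ^ M + (∑ j, v (M + k) j) / b ^ (M + k)) := by
      field_simp
    rw [add_mul, h5]
    exact (abs_add_le _ _).trans (add_le_add h1 h2)
  · have e7 : ∑ i, c i * (Φ i / S) =
        (∑ n ∈ Finset.range k, (∑ i, c i * v (M + n) i) / b ^ (M + n)) / S := by
      rw [Finset.sum_div]
      have : ∀ i, c i * (Φ i / S) = ∑ n ∈ Finset.range k, c i * v (M + n) i / b ^ (M + n) / S := by
        intro i
        rw [hΦ]
        simp only []
        rw [Finset.sum_div, Finset.mul_sum]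
        apply Finset.sum_congr rfl
        intro n _
        ring
      rw [Finset.sum_congr rfl fun i _ => this i, Finset.sum_comm]
      apply Finset.sum_congr rfl
      intro n _
      rw [← Finset.sum_div, ← Finset.sum_div]
    rw [e7]
    exact div_nonneg (Finset.sum_nonneg fun n _ => div_nonneg (hc _) (by positivity)) hS.le

/-- approximate eigenvectors in the simplex give an eigenvector -/
theorem exact_of_approx [Nonempty ι] (A : Matrix ι ι ℝ) (a : ℝ) (T : Set (ι → ℝ))
    (hT : IsClosed T)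
    (h : ∀ η > 0, ∃ w ∈ stdSimplex ℝ ι, w ∈ T ∧ ∀ i, |a * w i - (A.mulVec w) i| ≤ η) :
    ∃ w ∈ stdSimplex ℝ ι, w ∈ T ∧ A.mulVec w = a • w := by
  have hcomp : IsCompact (stdSimplex ℝ ι ∩ T) := (isCompact_stdSimplex ℝ ι).inter_right hT
  have hne : (stdSimplex ℝ ι ∩ T).Nonempty := by
    obtain ⟨w, hw, hw2, _⟩ := h 1 one_pos
    exact ⟨w, hw, hw2⟩
  set F : (ι → ℝ) → ℝ := fun w => ∑ i, |a * w i - (A.mulVec w) i| with hF
  have hFc : Continuous F := by
    apply continuous_finsetSum
    intro i _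
    apply Continuous.abs
    apply Continuous.sub
    · exact continuous_const.mul (continuous_apply i)
    · unfold Matrix.mulVec dotProduct
      exact continuous_finsetSum _ fun k _ => continuous_const.mul (continuous_apply k)
  obtain ⟨w, hw, hmin⟩ := hcomp.exists_isMinOn hne hFc.continuousOn
  have hF0 : F w = 0 := by
    apply le_antisymm _ (Finset.sum_nonneg fun i _ => abs_nonneg _)
    apply le_of_forall_pos_le_add
    intro ε hε
    rw [zero_add]
    have hcard : 0 < (Fintype.card ι : ℝ) := by exact_mod_cast Fintype.card_pos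
    obtain ⟨w', hw', hw2', h'⟩ := h (ε / Fintype.card ι) (by positivity)
    calc F w ≤ F w' := hmin ⟨hw', hw2'⟩
      _ ≤ ∑ _i : ι, ε / Fintype.card ι := Finset.sum_le_sum fun i _ => h' i
      _ = ε := by
        rw [Finset.sum_const, Finset.card_univ, nsmul_eq_mul]
        field_simp
  refine ⟨w, hw.1, hw.2, ?_⟩
  funext i
  have h1 : |a * w i - (A.mulVec w) i| = 0 :=
    (Finset.sum_eq_zero_iff_of_nonneg (fun i _ => abs_nonneg _)).mp hF0 i (Finset.mem_univ i)
  rw [abs_eq_zero] at h1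
  rw [Pi.smul_apply, smul_eq_mul]
  linarith

theorem simplex_ne_zero {w : ι → ℝ} (hw : w ∈ stdSimplex ℝ ι) : w ≠ 0 := by
  intro h0
  have := hw.2
  rw [h0] at this
  simp at this

/-- only finitely many eigenvalues -/
theorem finite_eig [DecidableEq ι] (A : Matrix ι ι ℝ) :
    {b : ℝ | ∃ w : ι → ℝ, w ≠ 0 ∧ A.mulVec w = b • w}.Finite := by
  have h : {b : ℝ | ∃ w : ι → ℝ, w ≠ 0 ∧ A.mulVec w = b • w} ⊆ (A.charpoly.roots.toFinset : Set ℝ)
      := by
    rintro b ⟨w, hw, h⟩
    rw [Finset.mem_coe, Multiset.mem_toFinset, Polynomial.mem_roots A.charpoly_monic.ne_zero,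
      Polynomial.IsRoot, Matrix.eval_charpoly]
    rw [← Matrix.exists_mulVec_eq_zero_iff]
    refine ⟨w, hw, ?_⟩
    rw [Matrix.sub_mulVec, h]
    funext i
    simp [Matrix.scalar_apply]
  exact (Finset.finite_toSet _).subset h

theorem no_interval (A : Matrix ι ι ℝ) {s s' : ℝ} (hs : s < s')
    (h : ∀ b, s < b → b < s' → ∃ w ∈ stdSimplex ℝ ι, A.mulVec w = b • w) : False := by
  classical
  have h1 : Set.Ioo s s' ⊆ {b : ℝ | ∃ w : ι → ℝ, w ≠ 0 ∧ A.mulVec w = b • w} := by
    rintro b ⟨h1, h2⟩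
    obtain ⟨w, hw, hw2⟩ := h b h1 h2
    exact ⟨w, simplex_ne_zero hw, hw2⟩
  exact Set.Ioo_infinite hs ((finite_eig A).subset h1)

/-- eigenvalue from windows with small boundary -/
theorem eig_of_windows [Nonempty ι] (A : Matrix ι ι ℝ) (v : ℕ → ι → ℝ) (hv : ∀ n i, 0 ≤ v n i)
    {b : ℝ} (hb : 0 < b)
    (h : ∀ η > 0, ∃ M, (∀ n ≥ M, ∀ i, |v (n + 1) i - (A.mulVec (v n)) i| ≤ η * ∑ j, v n j) ∧
      ∃ k, 0 < ∑ n ∈ Finset.range k, (∑ j, v (M + n) j) / b ^ (M + n) ∧
        (∑ j, v M j) / b ^ M + (∑ j, v (M + k) j) / b ^ (M + k) ≤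
          η * ∑ n ∈ Finset.range k, (∑ j, v (M + n) j) / b ^ (M + n)) :
    ∃ w ∈ stdSimplex ℝ ι, A.mulVec w = b • w := by
  obtain ⟨w, hw, _, h2⟩ := exact_of_approx A b Set.univ isClosed_univ (by
    intro η hη
    obtain ⟨M, hM, k, hk, hbd⟩ := h (η / (b + 1)) (by positivity)
    obtain ⟨w, hw, h1, _⟩ := window A v hv hb hM hk
    refine ⟨w, hw, Set.mem_univ _, fun i => (h1 i).trans ?_⟩
    have h3 : ((∑ j, v M j) / b ^ M + (∑ j, v (M + k) j) / b ^ (M + k)) /
        ∑ n ∈ Finset.range k, (∑ j, v (M + n) j) / b ^ (M + n) ≤ η / (b + 1) := by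
      rw [div_le_iff₀ hk]
      exact hbd
    calc b * _ + η / (b + 1) ≤ b * (η / (b + 1)) + η / (b + 1) := by gcongr
      _ = η := by field_simp)
  exact ⟨w, hw, h2⟩

end Pool.Agent.Helper90.KSC
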