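import Mathlib

/-!
Subsets of products of projective spaces over a field: globally generated, nef, pseudoeffective
and numerically trivial line bundles `O(c)`, Zariski closed sets, self maps.
-/

open scoped LinearAlgebra.Projectivization
open Filter Topology

namespace Pool.Agent.Helper90.KSC

/-- The `K`-points of the product over `i` of the projective spaces of dimensions `N i`. -/
abbrev PPt (K : Type*) [Field K] {ι : Type*} (N : ι → ℕ) : Type _ :=
  ∀ i, ℙ K (Fin (N i + 1) → K)

/-- Index set of the monomials of multidegree `b`: for every factor `i` a list of `b i` of its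
homogeneous coordinates. -/
abbrev Mono {ι : Type*} (N b : ι → ℕ) : Type _ :=
  ∀ t : (Σ i, Fin (b i)), Fin (N t.1 + 1)

variable {K : Type*} [Field K] {ι : Type*} [Fintype ι] [DecidableEq ι] {N : ι → ℕ}

/-- The monomials of multidegree `b` in the homogeneous coordinates of `x`. -/
noncomputable def mono (b : ι → ℕ) (x : PPt K N) (w : Mono N b) : K :=
  ∏ t : (Σ i, Fin (b i)), (x t.1).rep (w t)

/-- The line bundle `O(c)` is generated by global sections on `Y`: there are finitely many
sections of `O(c)` (given by their products with all the monomials of multidegree `d`, which are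
the forms `L p` of multidegree `b = c + d`) without a common zero on `Y`; `z` is the vector of the
values of these sections at `x`. -/
def Generated (Y : Set (PPt K N)) (c : ι → ℤ) : Prop :=
  ∃ b d : ι → ℕ, (∀ i, (b i : ℤ) = c i + d i) ∧
    ∃ (t : ℕ) (L : Fin t × Mono N d → Mono N b → K), ∀ x ∈ Y, ∃ z : Fin t → K, z ≠ 0 ∧
      ∀ p, z p.1 * mono d x p.2 = ∑ w, L p w * mono b x w

/-- The class of `O(c)` is nef on `Y`: for every `m` some positive multiple of
`m c + (1, ..., 1)` is generated by global sections. -/
def Nef (Y : Set (PPt K N)) (c : ι → ℤ) : Prop :=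
  ∀ m : ℕ, 1 ≤ m → ∃ k : ℕ, 1 ≤ k ∧ Generated Y fun i => k * (m * c i + 1)

/-- The class of `O(c)` is numerically trivial on `Y`. -/
def NumTrivial (Y : Set (PPt K N)) (c : ι → ℤ) : Prop :=
  Nef Y c ∧ Nef Y (-c)

/-- Zariski closed subsets: common zeros of multihomogeneous polynomials. -/
def ZClosed (E : Set (PPt K N)) : Prop :=
  ∃ S : Set (MvPolynomial (Σ i, Fin (N i + 1)) K),
    (∀ F ∈ S, ∃ b : ι → ℕ, F.IsWeightedHomogeneous (fun s => Pi.single s.1 1) b) ∧
    E = {x | ∀ F ∈ S, MvPolynomial.eval (fun s => (x s.1).rep s.2) F = 0}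

/-- The class of `O(c)` is pseudoeffective on `Y`: for every `m` some positive multiple of
`m c + (1, ..., 1)` has global sections without a common zero outside a proper closed subset. -/
def Pseff (Y : Set (PPt K N)) (c : ι → ℤ) : Prop :=
  ∀ m : ℕ, 1 ≤ m → ∃ k : ℕ, 1 ≤ k ∧ ∃ E : Set (PPt K N), ZClosed E ∧ ¬ Y ⊆ E ∧
    Generated (Y \ E) fun i => k * (m * c i + 1)

/-- A pair of points of the product, as a point of the product taken twice. -/
def pair (x y : PPt K N) : PPt K (Sum.elim N N)
  | .inl i => x i
  | .inr i => y i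

/-- The graph of `f` on `X`. -/
def graph (X : Set (PPt K N)) (f : PPt K N → PPt K N) : Set (PPt K (Sum.elim N N)) :=
  (fun x => pair x (f x)) '' X

/-- On `X`, the pull back by `f` of the class of the `i`-th `O(1)` is the sum of the `A i j`
times the class of the `j`-th `O(1)`, up to numerical equivalence: the difference of the two
classes, taken on the graph of `f`, is numerically trivial. -/
def ActsBy (X : Set (PPt K N)) (f : PPt K N → PPt K N) (A : Matrix ι ι ℤ) : Prop :=
  ∀ i, NumTrivial (graph X f) (Sum.elim (fun j => -A i j) (Pi.single i 1))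

/-- `X` is irreducible for the Zariski topology. -/
def Irred (X : Set (PPt K N)) : Prop :=
  X.Nonempty ∧ ∀ E₁ E₂, ZClosed E₁ → ZClosed E₂ → X ⊆ E₁ ∪ E₂ → X ⊆ E₁ ∨ X ⊆ E₂

/-- `f` is continuous on `X` for the Zariski topology. -/
def ZCont (X : Set (PPt K N)) (f : PPt K N → PPt K N) : Prop :=
  ∀ E, ZClosed E → ∃ E', ZClosed E' ∧ ∀ x ∈ X, x ∈ E' ↔ f x ∈ E

/-- The forward orbit of `x` is Zariski dense in `X`. -/
def DenseOrbit (X : Set (PPt K N)) (f : PPt K N → PPt K N) (x : PPt K N) : Prop :=
  ∀ E, ZClosed E → (∀ n, f^[n] x ∈ E) → X ⊆ E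

/-- The height of a point of the product of projective spaces, with respect to `O(1, ..., 1)`. -/
noncomputable def totalHeight [NumberField K] (x : PPt K N) : ℝ :=
  ∑ i, Projectivization.logHeight (x i)

/-- The arithmetic degree of `f` at `x` exists and is equal to `a`. -/
def ArithDegree [NumberField K] (f : PPt K N → PPt K N) (x : PPt K N) (a : ℝ) : Prop :=
  Tendsto (fun n : ℕ => (max (totalHeight (f^[n] x)) 1) ^ ((1 : ℝ) / n)) atTop (𝓝 a)

end Pool.Agent.Helper90.KSC
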