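import Pool.Agent.Helper90.KSC.Cone

/-!
Exponential growth of nonnegative vector sequences with `v (n+1) = A v n + o(|v n|)`.
-/

open Filter Topology

namespace Pool.Agent.Helper90.KSC

variable {ι : Type*} [Fintype ι]

theorem eig_of_peaks [Nonempty ι] (A : Matrix ι ι ℝ) (v : ℕ → ι → ℝ) (hv : ∀ n i, 0 ≤ v n i)
    (he : ∀ ε > 0, ∃ M, ∀ n ≥ M, ∀ i, |v (n + 1) i - (A.mulVec (v n)) i| ≤ ε * ∑ j, v n j)
    (hpos : ∃ M, ∀ n ≥ M, 0 < ∑ j, v n j) {b : ℝ} (hb : 0 < b)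
    (H : ∀ η > 0, ∀ M, ∃ m ≥ M, ∃ n ≥ m, ∃ N > n,
      (∑ j, v m j) / b ^ m + (∑ j, v N j) / b ^ N ≤ η * ((∑ j, v n j) / b ^ n)) :
    ∃ w ∈ stdSimplex ℝ ι, A.mulVec w = b • w := by
  obtain ⟨M₁, hM₁⟩ := hpos
  have hu : ∀ n, 0 ≤ ∑ j, v n j := fun n => Finset.sum_nonneg fun j _ => hv n j
  apply eig_of_windows A v hv hb
  intro η hη
  obtain ⟨M₂, hM₂⟩ := he η hη
  obtain ⟨m, hm, n, hn, N, hN, h⟩ := H η hη (max M₁ M₂)
  have hm1 : M₁ ≤ m := (le_max_left _ _).trans hm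
  have hm2 : M₂ ≤ m := (le_max_right _ _).trans hm
  refine ⟨m, fun n' hn' => hM₂ n' (by omega), N - m, ?_⟩
  have hge : (∑ j, v n j) / b ^ n ≤
      ∑ n' ∈ Finset.range (N - m), (∑ j, v (m + n') j) / b ^ (m + n') := by
    have h1 := Finset.single_le_sum (f := fun n' => (∑ j, v (m + n') j) / b ^ (m + n'))
      (s := Finset.range (N - m)) (a := n - m)
      (fun i _ => div_nonneg (hu _) (by positivity)) (Finset.mem_range.mpr (by omega))
    have e : m + (n - m) = n := by omega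
    simp only [e] at h1
    exact h1
  have hpos' : 0 < (∑ j, v n j) / b ^ n := div_pos (hM₁ n (by omega)) (by positivity)
  refine ⟨lt_of_lt_of_le hpos' hge, ?_⟩
  have e : m + (N - m) = N := by omega
  rw [e]
  exact h.trans (mul_le_mul_of_nonneg_left hge hη.le)

theorem step_bound (A : Matrix ι ι ℝ) (v : ℕ → ι → ℝ) (hv : ∀ n i, 0 ≤ v n i)
    (he : ∀ ε > 0, ∃ M, ∀ n ≥ M, ∀ i, |v (n + 1) i - (A.mulVec (v n)) i| ≤ ε * ∑ j, v n j) :
    ∃ B ≥ (1 : ℝ), ∃ M, ∀ n ≥ M, ∑ j, v (n + 1) j ≤ B * ∑ j, v n j := by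
  obtain ⟨M, hM⟩ := he 1 one_pos
  set L : ℝ := ∑ i, ∑ j, |A i j| with hL
  have hL0 : 0 ≤ L := Finset.sum_nonneg fun i _ => Finset.sum_nonneg fun j _ => abs_nonneg _
  refine ⟨L + Fintype.card ι + 1, by
    have : (0 : ℝ) ≤ Fintype.card ι := by positivity
    linarith, M, fun n hn => ?_⟩
  have hu : 0 ≤ ∑ j, v n j := Finset.sum_nonneg fun j _ => hv n j
  have h1 : ∀ i, v (n + 1) i ≤ ∑ j, |A i j| * v n j + ∑ j, v n j := by
    intro i
    have h2 := (abs_le.mp (hM n hn i)).2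
    have h3 : (A.mulVec (v n)) i ≤ ∑ j, |A i j| * v n j := by
      unfold Matrix.mulVec dotProduct
      exact Finset.sum_le_sum fun j _ => mul_le_mul_of_nonneg_right (le_abs_self _) (hv n j)
    linarith
  have h4 : ∀ i, ∑ j, |A i j| * v n j ≤ (∑ j, |A i j|) * ∑ j, v n j := by
    intro i
    rw [Finset.sum_mul]
    apply Finset.sum_le_sum
    intro j _
    apply mul_le_mul_of_nonneg_left _ (abs_nonneg _)
    exact Finset.single_le_sum (f := fun j => v n j) (fun j _ => hv n j) (Finset.mem_univ j)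
  calc ∑ i, v (n + 1) i ≤ ∑ i, ((∑ j, |A i j|) * (∑ j, v n j) + ∑ j, v n j) :=
        Finset.sum_le_sum fun i _ => (h1 i).trans (by linarith [h4 i])
    _ = (L + Fintype.card ι) * ∑ j, v n j := by
        rw [Finset.sum_add_distrib, ← Finset.sum_mul, Finset.sum_const, Finset.card_univ,
          nsmul_eq_mul, hL]
        ring
    _ ≤ (L + Fintype.card ι + 1) * ∑ j, v n j := by nlinarith

theorem growth_exists [Nonempty ι] (A : Matrix ι ι ℝ) (v : ℕ → ι → ℝ) (hv : ∀ n i, 0 ≤ v n i)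
    (he : ∀ ε > 0, ∃ M, ∀ n ≥ M, ∀ i, |v (n + 1) i - (A.mulVec (v n)) i| ≤ ε * ∑ j, v n j)
    (hinf : ∀ B : ℝ, ∃ N, ∀ n ≥ N, B ≤ ∑ i, v n i) :
    ∃ a : ℝ, 1 ≤ a ∧ (∀ s, a < s → ∀ᶠ n in atTop, ∑ j, v n j ≤ s ^ n) ∧
      (∀ s, 0 < s → s < a → ∀ᶠ n in atTop, s ^ n ≤ ∑ j, v n j) := by
  have hpos : ∃ M, ∀ n ≥ M, 0 < ∑ j, v n j := by
    obtain ⟨M, hM⟩ := hinf 1
    exact ⟨M, fun n hn => lt_of_lt_of_le one_pos (hM n hn)⟩
  have hu : ∀ n, 0 ≤ ∑ j, v n j := fun n => Finset.sum_nonneg fun j _ => hv n j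
  set u : ℕ → ℝ := fun n => ∑ j, v n j with hud
  set Q : Set ℝ := {b | 0 < b ∧ ∀ᶠ n in atTop, u n ≤ b ^ n} with hQ
  have hne : Q.Nonempty := by
    obtain ⟨B, hB, M, hM⟩ := step_bound A v hv he
    have h1 : ∀ k, u (M + k) ≤ u M * B ^ k := by
      intro k
      induction k with
      | zero => simp
      | succ k ih =>
        have h2 : u (M + (k + 1)) ≤ B * u (M + k) := hM (M + k) (by omega)
        calc u (M + (k + 1)) ≤ B * u (M + k) := h2
          _ ≤ B * (u M * B ^ k) := by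
            apply mul_le_mul_of_nonneg_left ih (by linarith)
          _ = u M * B ^ (k + 1) := by ring
    refine ⟨2 * B, by linarith, ?_⟩
    have h3 : ∀ᶠ n : ℕ in atTop, u M ≤ (2 : ℝ) ^ n :=
      (tendsto_pow_atTop_atTop_of_one_lt (by norm_num : (1 : ℝ) < 2)).eventually_ge_atTop (u M)
    filter_upwards [h3, eventually_ge_atTop M] with n hn1 hn2
    obtain ⟨k, rfl⟩ := Nat.exists_eq_add_of_le hn2
    calc u (M + k) ≤ u M * B ^ k := h1 k
      _ ≤ 2 ^ (M + k) * B ^ (M + k) := by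
        apply mul_le_mul hn1 (pow_le_pow_right₀ hB (by omega)) (by positivity) (by positivity)
      _ = (2 * B) ^ (M + k) := by rw [mul_pow]
  have hbd : ∀ b ∈ Q, 1 ≤ b := by
    rintro b ⟨hb0, hb⟩
    by_contra hcon
    push Not at hcon
    obtain ⟨N, hN⟩ := hinf 2
    obtain ⟨n, hn1, hn2⟩ := (hb.and (eventually_ge_atTop N)).exists
    have h1 : (2 : ℝ) ≤ u n := hN n hn2
    have h2 : b ^ n ≤ 1 := pow_le_one₀ hb0.le hcon.le
    linarith
  have hbb : BddBelow Q := ⟨1, fun b hb => hbd b hb⟩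
  have hup : ∀ s, sInf Q < s → ∀ᶠ n in atTop, u n ≤ s ^ n := by
    intro s hs
    obtain ⟨b, ⟨hb0, hb⟩, hbs⟩ := exists_lt_of_csInf_lt hne hs
    filter_upwards [hb] with n hn
    exact hn.trans (pow_le_pow_left₀ hb0.le hbs.le n)
  have hfreq : ∀ s, 0 < s → s < sInf Q → ∃ᶠ n in atTop, s ^ n < u n := by
    intro s hs hs'
    have h1 : s ∉ Q := fun h => absurd (csInf_le hbb h) (not_le.mpr hs')
    intro h2
    apply h1
    refine ⟨hs, ?_⟩
    filter_upwards [h2] with n hn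
    exact not_lt.mp hn
  refine ⟨sInf Q, le_csInf hne hbd, hup, ?_⟩
  intro s hs hs'
  by_contra hcon
  have hfr : ∃ᶠ n in atTop, u n < s ^ n := by
    intro h
    apply hcon
    filter_upwards [h] with n hn
    exact not_lt.mp hn
  refine no_interval A hs' fun b hb1 hb2 => ?_
  have hb0 : 0 < b := hs.trans hb1
  apply eig_of_peaks A v hv he hpos hb0
  intro η hη M
  obtain ⟨m, hm1, hm2⟩ := (hfr.and_eventually (eventually_ge_atTop M)).exists
  set b' := (b + sInf Q) / 2 with hb'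
  have hb'1 : b < b' := by rw [hb']; linarith
  have hb'2 : b' < sInf Q := by rw [hb']; linarith
  have h3 : ∀ᶠ n : ℕ in atTop, 2 / η ≤ (b' / b) ^ n :=
    (tendsto_pow_atTop_atTop_of_one_lt ((one_lt_div hb0).mpr hb'1)).eventually_ge_atTop _
  obtain ⟨n, ⟨hn1, hn2⟩, hn3⟩ := (((hfreq b' (hb0.trans hb'1) hb'2).and_eventually h3).and_eventually
    (eventually_ge_atTop m)).exists
  obtain ⟨N, hN1, hN2⟩ := (hfr.and_eventually (eventually_gt_atTop n)).exists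
  have hsb : ∀ k : ℕ, u k < s ^ k → u k / b ^ k ≤ 1 := by
    intro k hk
    rw [div_le_one (by positivity)]
    exact hk.le.trans (pow_le_pow_left₀ hs.le hb1.le k)
  refine ⟨m, hm2, n, hn3, N, hN2, ?_⟩
  have e1 := hsb m hm1
  have e2 := hsb N hN1
  have e3 : 2 / η ≤ u n / b ^ n := by
    refine hn2.trans ?_
    rw [div_pow]
    exact div_le_div_of_nonneg_right hn1.le (by positivity)
  have e4 : 2 ≤ η * (u n / b ^ n) := by
    rw [div_le_iff₀ hη] at e3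
    linarith
  have e5 : u m / b ^ m + u N / b ^ N ≤ η * (u n / b ^ n) := by linarith
  exact e5

theorem local_up [Nonempty ι] (A : Matrix ι ι ℝ) (v : ℕ → ι → ℝ) (hv : ∀ n i, 0 ≤ v n i)
    (he : ∀ ε > 0, ∃ M, ∀ n ≥ M, ∀ i, |v (n + 1) i - (A.mulVec (v n)) i| ≤ ε * ∑ j, v n j)
    (hpos : ∃ M, ∀ n ≥ M, 0 < ∑ j, v n j) {a : ℝ} (ha : 0 < a)
    (hup : ∀ s, a < s → ∀ᶠ n in atTop, ∑ j, v n j ≤ s ^ n) {s : ℝ} (hs : a < s) :
    ∃ C > 0, ∃ M, ∀ n ≥ M, ∀ k, ∑ j, v (n + k) j ≤ C * s ^ k * ∑ j, v n j := by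
  by_contra hcon
  push Not at hcon
  set u : ℕ → ℝ := fun n => ∑ j, v n j with hud
  obtain ⟨M₁, hM₁⟩ := hpos
  refine no_interval A hs fun b hb1 hb2 => ?_
  have hb0 : 0 < b := ha.trans hb1
  apply eig_of_peaks A v hv he ⟨M₁, hM₁⟩ hb0
  intro η hη M
  obtain ⟨m, hm, k, hk⟩ := hcon (2 / η) (by positivity) (max M M₁)
  have hm1 : M ≤ m := (le_max_left _ _).trans hm
  have hm2 : M₁ ≤ m := (le_max_right _ _).trans hm
  have hum : 0 < u m := hM₁ m hm2
  have htm : 0 < u m / b ^ m := by positivity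
  -- find N with t_N ≤ t_m
  set b' := (a + b) / 2 with hb'
  have hb'1 : a < b' := by rw [hb']; linarith
  have hb'2 : b' < b := by rw [hb']; linarith
  have hb'0 : 0 < b' := ha.trans hb'1
  have h3 : ∀ᶠ n : ℕ in atTop, (b' / b) ^ n < u m / b ^ m :=
    (tendsto_pow_atTop_nhds_zero_of_lt_one (by positivity)
      ((div_lt_one hb0).mpr hb'2)).eventually_lt_const htm
  obtain ⟨N, ⟨hN1, hN2⟩, hN3⟩ := (((hup b' hb'1).and h3).and (eventually_gt_atTop (m + k))).exists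
  refine ⟨m, hm1, m + k, by omega, N, hN3, ?_⟩
  have e1 : u N / b ^ N ≤ u m / b ^ m := by
    refine le_trans ?_ hN2.le
    rw [div_pow]
    exact div_le_div_of_nonneg_right hN1 (by positivity)
  have e2 : 2 / η * (u m / b ^ m) ≤ u (m + k) / b ^ (m + k) := by
    rw [le_div_iff₀ (by positivity)]
    have h4 : b ^ k ≤ s ^ k := pow_le_pow_left₀ hb0.le hb2.le k
    have h5 : 2 / η * s ^ k * u m ≤ u (m + k) := hk.le
    calc 2 / η * (u m / b ^ m) * b ^ (m + k) = 2 / η * b ^ k * u m := by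
          rw [pow_add]
          field_simp
      _ ≤ 2 / η * s ^ k * u m := by gcongr
      _ ≤ u (m + k) := h5
  have e3 : 2 * (u m / b ^ m) ≤ η * (u (m + k) / b ^ (m + k)) := by
    calc 2 * (u m / b ^ m) = η * (2 / η * (u m / b ^ m)) := by field_simp
      _ ≤ η * (u (m + k) / b ^ (m + k)) := by gcongr
  have e4 : u m / b ^ m + u N / b ^ N ≤ η * (u (m + k) / b ^ (m + k)) := by linarith
  exact e4

theorem local_low [Nonempty ι] (A : Matrix ι ι ℝ) (v : ℕ → ι → ℝ) (hv : ∀ n i, 0 ≤ v n i)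
    (he : ∀ ε > 0, ∃ M, ∀ n ≥ M, ∀ i, |v (n + 1) i - (A.mulVec (v n)) i| ≤ ε * ∑ j, v n j)
    (hpos : ∃ M, ∀ n ≥ M, 0 < ∑ j, v n j) {a : ℝ}
    (hlow : ∀ s, 0 < s → s < a → ∀ᶠ n in atTop, s ^ n ≤ ∑ j, v n j) {s : ℝ} (hs0 : 0 < s)
    (hs : s < a) :
    ∃ c > 0, ∃ M, ∀ n ≥ M, ∀ k, c * s ^ k * ∑ j, v n j ≤ ∑ j, v (n + k) j := by
  by_contra hcon
  push Not at hcon
  set u : ℕ → ℝ := fun n => ∑ j, v n j with hud
  obtain ⟨M₁, hM₁⟩ := hpos
  refine no_interval A hs fun b hb1 hb2 => ?_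
  have hb0 : 0 < b := hs0.trans hb1
  apply eig_of_peaks A v hv he ⟨M₁, hM₁⟩ hb0
  intro η hη M
  set b' := (a + b) / 2 with hb'
  have hb'1 : b' < a := by rw [hb']; linarith
  have hb'2 : b < b' := by rw [hb']; linarith
  have hb'0 : 0 < b' := hb0.trans hb'2
  have h3 : ∀ᶠ n : ℕ in atTop, 2 / η * (u M / b ^ M) ≤ (b' / b) ^ n :=
    (tendsto_pow_atTop_atTop_of_one_lt ((one_lt_div hb0).mpr hb'2)).eventually_ge_atTop _
  obtain ⟨M₂, hM₂⟩ := eventually_atTop.mp ((hlow b' hb'0 hb'1).and h3)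
  set c : ℝ := min (η / 2) (1 / 2) with hc
  have hc0 : 0 < c := by
    rw [hc]
    exact lt_min (by positivity) (by norm_num)
  obtain ⟨n, hn, k, hk⟩ := hcon c hc0 (max (max M M₁) M₂)
  have hn1 : M ≤ n := (le_max_left _ _).trans ((le_max_left _ _).trans hn)
  have hn2 : M₁ ≤ n := (le_max_right _ _).trans ((le_max_left _ _).trans hn)
  have hn3 : M₂ ≤ n := (le_max_right _ _).trans hn
  have hun : 0 < u n := hM₁ n hn2
  have hk0 : k ≠ 0 := by
    rintro rfl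
    have h4 : u (n + 0) < c * s ^ 0 * u n := hk
    have h5 : c ≤ 1 / 2 := min_le_right _ _
    simp only [add_zero, pow_zero, mul_one] at h4
    nlinarith
  obtain ⟨hn4, hn5⟩ := hM₂ n hn3
  refine ⟨M, le_rfl, n, hn1, n + k, by omega, ?_⟩
  have e1 : 2 / η * (u M / b ^ M) ≤ u n / b ^ n := by
    refine hn5.trans ?_
    rw [div_pow]
    exact div_le_div_of_nonneg_right hn4 (by positivity)
  have e2 : u M / b ^ M ≤ η / 2 * (u n / b ^ n) := by
    calc u M / b ^ M = η / 2 * (2 / η * (u M / b ^ M)) := by field_simp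
      _ ≤ η / 2 * (u n / b ^ n) := by gcongr
  have e3 : u (n + k) / b ^ (n + k) ≤ η / 2 * (u n / b ^ n) := by
    rw [div_le_iff₀ (by positivity)]
    have h4 : s ^ k ≤ b ^ k := pow_le_pow_left₀ hs0.le hb1.le k
    have h5 : c ≤ η / 2 := min_le_left _ _
    have h6 : u (n + k) < c * s ^ k * u n := hk
    calc u (n + k) ≤ c * s ^ k * u n := h6.le
      _ ≤ η / 2 * b ^ k * u n := by gcongr
      _ = η / 2 * (u n / b ^ n) * b ^ (n + k) := by
        rw [pow_add]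
        field_simp
  have e4 : u M / b ^ M + u (n + k) / b ^ (n + k) ≤ η * (u n / b ^ n) := by linarith
  exact e4

end Pool.Agent.Helper90.KSC
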