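import Pool.Agent.Helper90.KSC.Bound
import Pool.Agent.Helper90.KSC.Zar

/-!
The arithmetic degree is an eigenvalue with an eigenvector in the cone of curves, and in the cone
of movable curves if the orbit is dense.
-/

open Filter Topology

namespace Pool.Agent.Helper90.KSC

open scoped LinearAlgebra.Projectivization

variable {K : Type*} [Field K] [NumberField K] {ι : Type*} [Fintype ι] [DecidableEq ι] {N : ι → ℕ}

theorem main (X : Set (PPt K N)) (f : PPt K N → PPt K N)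
    (hf : Set.MapsTo f X X) (A : Matrix ι ι ℤ) (hA : ActsBy X f A) (x : PPt K N) (hx : x ∈ X)
    (hinj : Function.Injective fun n : ℕ => f^[n] x) :
    ∃ a : ℝ, 1 ≤ a ∧ ArithDegree f x a ∧
      (∃ w : ι → ℝ, w ≠ 0 ∧ (∀ i, 0 ≤ w i) ∧ (∀ c, Nef X c → 0 ≤ ∑ i, c i * w i) ∧
        (A.map (Int.cast : ℤ → ℝ)).mulVec w = a • w) ∧
      (Irred X → ZCont X f → DenseOrbit X f x →
        ∃ w : ι → ℝ, w ≠ 0 ∧ (∀ i, 0 ≤ w i) ∧ (∀ c, Pseff X c → 0 ≤ ∑ i, c i * w i) ∧
          (A.map (Int.cast : ℤ → ℝ)).mulVec w = a • w) := by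
  have hmem : ∀ n, f^[n] x ∈ X := by
    intro n
    induction n with
    | zero => exact hx
    | succ n ih => rw [Function.iterate_succ_apply']; exact hf ih
  have : Nonempty ι := by
    by_contra hcon
    rw [not_nonempty_iff] at hcon
    have h1 : f^[0] x = f^[1] x := Subsingleton.elim _ _
    exact absurd (hinj h1) (by norm_num)
  set v : ℕ → ι → ℝ := fun n i => Projectivization.logHeight ((f^[n] x) i) with hv
  have hvs : ∀ n, ∑ i, v n i = totalHeight (f^[n] x) := fun n => rfl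
  have hv0 : ∀ n i, 0 ≤ v n i := fun n i => Projectivization.logHeight_nonneg _
  have hinf : ∀ B : ℝ, ∃ M, ∀ n ≥ M, B ≤ ∑ i, v n i := by
    intro B
    have hfin : {n : ℕ | totalHeight (f^[n] x) ≤ B}.Finite :=
      (northcott_ppt (K := K) N B).preimage (f := fun n : ℕ => f^[n] x) hinj.injOn
    obtain ⟨M, hM⟩ := hfin.bddAbove
    refine ⟨M + 1, fun n hn => ?_⟩
    rw [hvs]
    by_contra hcon
    push Not at hcon
    have := hM (show n ∈ {n : ℕ | totalHeight (f^[n] x) ≤ B} from hcon.le)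
    omega
  have he : ∀ ε > 0, ∃ M, ∀ n ≥ M, ∀ i,
      |v (n + 1) i - ((A.map (Int.cast : ℤ → ℝ)).mulVec (v n)) i| ≤ ε * ∑ j, v n j := by
    intro ε hε
    obtain ⟨C, hC⟩ := hA.bound (half_pos hε)
    obtain ⟨M, hM⟩ := hinf (2 * C / ε)
    refine ⟨M, fun n hn i => ?_⟩
    have h1 := hC _ (hmem n) i
    have h2 := hM n hn
    rw [div_le_iff₀ hε] at h2
    have h3 : v (n + 1) i - ((A.map (Int.cast : ℤ → ℝ)).mulVec (v n)) i =
        Projectivization.logHeight (f (f^[n] x) i) -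
          ∑ j, (A i j : ℝ) * Projectivization.logHeight ((f^[n] x) j) := by
      simp only [hv, Function.iterate_succ_apply', Matrix.mulVec, dotProduct, Matrix.map_apply]
    rw [h3]
    rw [← hvs n] at h1
    linarith
  obtain ⟨a, ha, hlim, hcone⟩ := cone_eig (A.map (Int.cast : ℤ → ℝ)) v hv0 he hinf
  refine ⟨a, ha, hlim, ?_, ?_⟩
  · obtain ⟨w, hw, hwe, hwc⟩ := hcone id tendsto_id
    refine ⟨w, simplex_ne_zero hw, hw.1, fun c hc => ?_, hwe⟩
    apply hwc (fun i => (c i : ℝ))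
    intro m ε hε
    obtain ⟨C, hC⟩ := hc.bound (half_pos hε)
    obtain ⟨M, hM⟩ := hinf (2 * C / ε)
    filter_upwards [eventually_ge_atTop M] with k hk
    have h1 := hC _ (hmem (id k + m))
    have h2 := hM (id k + m) (by simp only [id]; omega)
    rw [div_le_iff₀ hε] at h2
    rw [← hvs] at h1
    have h3 : ∑ i, (c i : ℝ) * v (id k + m) i =
        ∑ i, (c i : ℝ) * Projectivization.logHeight ((f^[id k + m] x) i) := rfl
    rw [h3]
    linarith
  · intro hirr hcont hdense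
    -- bad sets
    have hbad : ∀ q : (ι → ℤ) × ℕ, ∃ E : Set (PPt K N), ZClosed E ∧ ¬ X ⊆ E ∧
        (Pseff X q.1 → 1 ≤ q.2 → ∃ k : ℕ, 1 ≤ k ∧
          Generated (X \ E) fun i => (k : ℤ) * (q.2 * q.1 i + 1)) := by
      intro q
      by_cases h : Pseff X q.1 ∧ 1 ≤ q.2
      · obtain ⟨k, hk, E, hE, hXE, hg⟩ := h.1 q.2 h.2
        exact ⟨E, hE, hXE, fun _ _ => ⟨k, hk, hg⟩⟩
      · refine ⟨∅, zclosed_empty, ?_, fun h1 h2 => absurd ⟨h1, h2⟩ h⟩
        intro h1
        obtain ⟨y, hy⟩ := hirr.1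
        exact h1 hy
    choose E hE hXE hEg using hbad
    obtain ⟨g, hg⟩ := exists_surjective_nat ((ι → ℤ) × ℕ)
    have hφ : ∀ k : ℕ, ∃ n ≥ k, ∀ j < k, ∀ q < k, f^[n + j] x ∉ E (g q) := by
      intro k
      have h1 : ¬ X ⊆ ⋃ q ∈ Finset.range k, E (g q) := by
        intro h2
        obtain ⟨q, _, hq⟩ := hirr.iUnion (fun q => hE (g q)) h2
        exact hXE _ hq
      obtain ⟨n, hn, h2⟩ := avoid hmem hinj hirr hcont hdense
        (zclosed_iUnion (m := k) fun q => hE (g q)) h1 hf k k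
      refine ⟨n, hn, fun j hj q hq h3 => h2 j hj ?_⟩
      simp only [Set.mem_iUnion]
      exact ⟨q, Finset.mem_range.mpr hq, h3⟩
    choose φ hφ1 hφ2 using hφ
    have hφt : Tendsto φ atTop atTop := tendsto_atTop_mono hφ1 tendsto_id
    obtain ⟨w, hw, hwe, hwc⟩ := hcone φ hφt
    refine ⟨w, simplex_ne_zero hw, hw.1, fun c hc => ?_, hwe⟩
    apply hwc (fun i => (c i : ℝ))
    intro m ε hε
    obtain ⟨p, hp⟩ := exists_nat_gt (1 / (ε / 2))
    have hp0 : (0 : ℝ) < p := (by positivity : (0 : ℝ) < 1 / (ε / 2)).trans hp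
    have hp1 : 1 ≤ p := by exact_mod_cast hp0
    obtain ⟨k₀, hk₀, hgen⟩ := hEg (c, p) hc hp1
    obtain ⟨C, hC⟩ := hgen.bound_mul hp1 hk₀
    obtain ⟨M, hM⟩ := hinf (2 * C / ε)
    obtain ⟨q, hq⟩ := hg (c, p)
    filter_upwards [eventually_ge_atTop M, eventually_gt_atTop q, eventually_gt_atTop m]
      with k hk1 hk2 hk3
    have h0 : f^[φ k + m] x ∉ E (c, p) := by
      rw [← hq]
      exact hφ2 k m hk3 q hk2
    have h1 := hC _ ⟨hmem (φ k + m), h0⟩
    have h2 := hM (φ k + m) (by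
      have := hφ1 k
      omega)
    rw [div_le_iff₀ hε] at h2
    rw [← hvs] at h1
    have h3 : ∑ i, (c i : ℝ) * v (φ k + m) i =
        ∑ i, (c i : ℝ) * Projectivization.logHeight ((f^[φ k + m] x) i) := rfl
    have h4 : (∑ i, v (φ k + m) i) / p ≤ ε / 2 * ∑ i, v (φ k + m) i := by
      have h5 : 0 ≤ ∑ i, v (φ k + m) i := Finset.sum_nonneg fun i _ => hv0 _ i
      rw [div_le_iff₀ hp0]
      rw [div_lt_iff₀ (by positivity)] at hp
      nlinarith
    rw [h3]
    linarith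

end Pool.Agent.Helper90.KSC
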